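import Pool.Agent.L0h64.RP.Ger

/-!
# Independence of the values in the field of germs, and the exchange argument (helper64)
-/

set_option autoImplicit false

namespace Pool.Agent.L0h64.RP

open Filter Pool.Agent.L0h64.ZV

/-- a set of shifts at most `H` and at distance at least `R` of each other and of `0` -/
def SepW (R H : ℕ) (W : Set ℕ) : Prop :=
  (∀ g ∈ W, R ≤ g ∧ g ≤ H) ∧ ∀ g ∈ W, ∀ g' ∈ W, g ≠ g' → g + R ≤ g' ∨ g' + R ≤ g

/-- linear independence of the monomials in the values `xv t g o` for separated shifts `g` -/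
def Base {κ : Type} [Fintype κ] (R : ℕ) (xv : ℕ → ℕ → κ → ℂ) : Prop :=
  ∀ N k : ℕ, ∃ E : ℕ, ∀ H t : ℕ, (H + 2) ^ E ≤ t → ∀ g : Fin k → ℕ,
    ((∀ l, R ≤ g l) ∧ ∀ l l', l ≠ l' → g l + R ≤ g l' ∨ g l' + R ≤ g l) → (∀ l, g l ≤ H) →
    LinearIndependent ℚ (fun s : Fin k × κ → Fin (N + 1) => ∏ i, xv t (g i.1) i.2 ^ (s i : ℕ))

/-- a sequence of windows -/
structure Wn (R : ℕ) where
  U : Ultrafilter ℕ
  hU : (U : Filter ℕ) ≤ atTop
  H : ℕ → ℕ
  t : ℕ → ℕ
  hHt : ∀ i, (H i + 2) ^ i ≤ t i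
  W : ℕ → Set ℕ
  hW : ∀ i, SepW R (H i) (W i)

variable {R : ℕ} {κ : Type} [Fintype κ] {xv : ℕ → ℕ → κ → ℂ} (S : Wn R)

/-- the values in the field of germs -/
def blk (xv : ℕ → ℕ → κ → ℂ) (σ : ℕ → ℕ) (o : κ) : Kg S.U := ((fun i => xv (S.t i) (σ i) o : ℕ → ℂ) : Kg S.U)

omit [Fintype κ] in
lemma blk_congr {σ σ' : ℕ → ℕ} (h : σ =ᶠ[(S.U : Filter ℕ)] σ') (o : κ) : blk S xv σ o = blk S xv σ' o := by
  unfold blk
  rw [Germ.coe_eq]
  filter_upwards [h] with i hi
  rw [hi]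

lemma bind (hb : Base R xv) {k : ℕ} (σ : Fin k → ℕ → ℕ) (hσ : ∀ l, ∀ᶠ i in (S.U : Filter ℕ), σ l i ∈ S.W i)
    (hd : ∀ l l', l ≠ l' → ∀ᶠ i in (S.U : Filter ℕ), σ l i ≠ σ l' i) :
    AlgebraicIndependent (Rg S.U) (fun lo : Fin k × κ => blk S xv (σ lo.1) lo.2) := by
  classical
  rw [algebraicIndependent_iff]
  intro p hp
  choose q hq using fun b => (p.coeff b).2
  obtain ⟨E, hE⟩ := hb p.totalDegree k
  have h1 : MvPolynomial.aeval (fun lo : Fin k × κ => blk S xv (σ lo.1) lo.2) p =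
      Germ.coeRingHom (S.U : Filter ℕ) (∑ b ∈ p.support, (fun i => (q b i : ℂ)) *
        ∏ lo : Fin k × κ, (fun i => xv (S.t i) (σ lo.1 i) lo.2) ^ b lo) := by
    rw [MvPolynomial.aeval_def, MvPolynomial.eval₂_eq', map_sum]
    refine Finset.sum_congr rfl fun b _ => ?_
    rw [map_mul, map_prod]
    congr 1
    exact (hq b).symm
  rw [h1] at hp
  have h2 : ∀ᶠ i in (S.U : Filter ℕ), ∑ b ∈ p.support, (q b i : ℂ) *
      ∏ lo : Fin k × κ, xv (S.t i) (σ lo.1 i) lo.2 ^ b lo = 0 := by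
    have h3 : ((∑ b ∈ p.support, (fun i => (q b i : ℂ)) *
        ∏ lo : Fin k × κ, (fun i => xv (S.t i) (σ lo.1 i) lo.2) ^ b lo : ℕ → ℂ) : Kg S.U) = ((0 : ℕ → ℂ) : Kg S.U) := hp
    rw [Germ.coe_eq] at h3
    filter_upwards [h3] with i hi
    rw [Finset.sum_apply, Pi.zero_apply] at hi
    rw [← hi]
    refine Finset.sum_congr rfl fun b _ => ?_
    rw [Pi.mul_apply, Finset.prod_apply]
    rfl
  have h3 : ∀ᶠ i in (S.U : Filter ℕ), ∀ l, σ l i ∈ S.W i := Filter.eventually_all.2 hσ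
  have h4 : ∀ᶠ i in (S.U : Filter ℕ), ∀ l l', l ≠ l' → σ l i ≠ σ l' i := by
    rw [Filter.eventually_all]
    intro l
    rw [Filter.eventually_all]
    intro l'
    by_cases hl : l = l'
    · exact Filter.Eventually.of_forall fun i h => absurd hl h
    · filter_upwards [hd l l' hl] with i hi _
      exact hi
  have h5 : ∀ᶠ i in (S.U : Filter ℕ), E ≤ i := S.hU (eventually_ge_atTop E)
  have h6 : ∀ᶠ i in (S.U : Filter ℕ), ∀ b ∈ p.support, q b i = 0 := by
    filter_upwards [h2, h3, h4, h5] with i i2 i3 i4 i5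
    have h7 := hE (S.H i) (S.t i) ((Nat.pow_le_pow_right (by omega) i5).trans (S.hHt i)) (fun l => σ l i)
      ⟨fun l => ((S.hW i).1 _ (i3 l)).1, fun l l' hl => (S.hW i).2 _ (i3 l) _ (i3 l') (i4 l l' hl)⟩
      fun l => ((S.hW i).1 _ (i3 l)).2
    have h8 := h7.comp (fun (b : p.support) (lo : Fin k × κ) => (⟨(b : (Fin k × κ) →₀ ℕ) lo, Nat.lt_succ_of_le
      ((MvPolynomial.monomial_le_degreeOf lo b.2).trans (MvPolynomial.degreeOf_le_totalDegree p lo))⟩ :
        Fin (p.totalDegree + 1))) (by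
      intro b b' hbb
      apply Subtype.ext
      ext lo
      exact congrArg Fin.val (congrFun hbb lo))
    rw [Fintype.linearIndependent_iff] at h8
    have h9 := h8 (fun b => q b i) (by
      rw [← i2, ← Finset.sum_coe_sort p.support]
      refine Finset.sum_congr rfl fun b _ => ?_
      rw [Rat.smul_def]
      rfl)
    intro b hb
    exact h9 ⟨b, hb⟩
  by_contra hne
  obtain ⟨b, hb⟩ := MvPolynomial.support_nonempty.2 hne
  apply MvPolynomial.mem_support_iff.1 hb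
  apply Subtype.ext
  rw [← hq b]
  change ((fun i => (q b i : ℂ) : ℕ → ℂ) : Kg S.U) = ((0 : ℕ → ℂ) : Kg S.U)
  rw [Germ.coe_eq]
  filter_upwards [h6] with i hi
  rw [hi b hb, Rat.cast_zero, Pi.zero_apply]

/-- the index set: germs of sequences of shifts in the windows -/
def Ix : Type := {γ : Germ (S.U : Filter ℕ) ℕ // ∃ σ : ℕ → ℕ, (σ : Germ (S.U : Filter ℕ) ℕ) = γ ∧
  ∀ᶠ i in (S.U : Filter ℕ), σ i ∈ S.W i}

/-- a representative -/
noncomputable def rp (γ : Ix S) : ℕ → ℕ := Classical.choose γ.2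

lemma rp1 (γ : Ix S) : (rp S γ : Germ (S.U : Filter ℕ) ℕ) = γ.1 := (Classical.choose_spec γ.2).1

lemma rp2 (γ : Ix S) : ∀ᶠ i in (S.U : Filter ℕ), rp S γ i ∈ S.W i := (Classical.choose_spec γ.2).2

/-- all the values -/
noncomputable def FF (xv : ℕ → ℕ → κ → ℂ) (x : Ix S × κ) : Kg S.U := blk S xv (rp S x.1) x.2

lemma FF_ind (hb : Base R xv) : AlgebraicIndependent (Rg S.U) (FF S xv) := by
  classical
  apply algebraicIndependent_of_finite_type
  intro t ht
  have hΓ : (Prod.fst '' t).Finite := ht.image _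
  have := hΓ.fintype
  let e : Fin (Fintype.card (Prod.fst '' t)) ≃ (Prod.fst '' t : Set (Ix S)) := (Fintype.equivFin _).symm
  have h1 := bind S hb (fun l => rp S (e l).1) (fun l => rp2 S _) (by
    intro l l' hl
    by_contra hcon
    have h2 : ∀ᶠ i in (S.U : Filter ℕ), ¬ (rp S (e l).1 i ≠ rp S (e l').1 i) := S.U.eventually_not.2 hcon
    apply hl
    apply e.injective
    apply Subtype.ext
    apply Subtype.ext
    rw [← rp1 S (e l).1, ← rp1 S (e l').1, Germ.coe_eq]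
    filter_upwards [h2] with i hi
    exact not_not.1 hi)
  have h2 := h1.comp (fun x : t => ((e.symm ⟨x.1.1, ⟨x.1, x.2, rfl⟩⟩, x.1.2) :
      Fin (Fintype.card (Prod.fst '' t)) × κ)) (by
    intro x y hxy
    rw [Prod.mk.injEq] at hxy
    have h3 := congrArg Subtype.val (e.symm.injective hxy.1)
    exact Subtype.ext (Prod.ext h3 hxy.2))
  have h4 : (fun i : t => FF S xv i) = (fun lo : Fin (Fintype.card (Prod.fst '' t)) × κ =>
      blk S xv (rp S (e lo.1).1) lo.2) ∘ (fun x : t => ((e.symm ⟨x.1.1, ⟨x.1, x.2, rfl⟩⟩, x.1.2) :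
      Fin (Fintype.card (Prod.fst '' t)) × κ)) := by
    funext x
    change FF S xv x.1 = blk S xv (rp S (e (e.symm _)).1) x.1.2
    rw [Equiv.apply_symm_apply]
    rfl
  rw [h4]
  exact h2

/-- the index of a sequence -/
def ix (σ : ℕ → ℕ) (h : ∀ᶠ i in (S.U : Filter ℕ), σ i ∈ S.W i) : Ix S := ⟨σ, σ, rfl, h⟩

omit [Fintype κ] in
lemma blk_ix (σ : ℕ → ℕ) (h : ∀ᶠ i in (S.U : Filter ℕ), σ i ∈ S.W i) (o : κ) :
    blk S xv σ o = FF S xv (ix S σ h, o) := by
  refine blk_congr S ?_ o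
  rw [← Germ.coe_eq]
  exact (rp1 S (ix S σ h)).symm

lemma blk_inj (hb : Base R xv) {σ σ' : ℕ → ℕ} (h : ∀ᶠ i in (S.U : Filter ℕ), σ i ∈ S.W i)
    (h' : ∀ᶠ i in (S.U : Filter ℕ), σ' i ∈ S.W i) {o o' : κ} (he : blk S xv σ o = blk S xv σ' o') :
    (σ =ᶠ[(S.U : Filter ℕ)] σ') ∧ o = o' := by
  rw [blk_ix S σ h, blk_ix S σ' h'] at he
  have h1 := (FF_ind S hb).injective he
  rw [Prod.mk.injEq] at h1
  refine ⟨?_, h1.2⟩
  rw [← Germ.coe_eq]
  exact congrArg Subtype.val h1.1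

/-- **the exchange argument** -/
theorem exch (hb : Base R xv) (Y : Set (Kg S.U)) (s : ℕ) (hY : Y.encard ≤ s) {k : ℕ} (g : ℕ → Finset ℕ → Fin k → ℕ)
    (hg : ∀ i T, T.card ≤ s → ∀ l, g i T l ∈ S.W i ∧ g i T l ∉ T)
    (hbad : ∀ T : ℕ → Finset ℕ, (∀ i, (T i).card ≤ s) → ∃ lo : Fin k × κ,
      blk S xv (fun i => g i (T i) lo.1) lo.2 ∈ (Mg S.U).closure
        (Y ∪ (Set.range (fun lo : Fin k × κ => blk S xv (fun i => g i (T i) lo.1) lo.2) \
          {blk S xv (fun i => g i (T i) lo.1) lo.2}))) : False := by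
  classical
  have hME : (Mg S.U).E = Set.univ := rfl
  have hZ : (Mg S.U).Indep (Set.range (FF S xv)) := (FF_ind S hb).to_subtype_range
  have key : ∀ j : ℕ, j ≤ s + 1 → ∃ (E : Set (Kg S.U)) (T : ℕ → Finset ℕ),
      (∀ i, (T i).card ≤ j) ∧ E ⊆ Set.range (FF S xv) ∧ E.encard = j ∧
      E ⊆ (Mg S.U).closure (Y ∪ (Set.range (FF S xv) \ E)) ∧
      ∀ (σ : ℕ → ℕ), (∀ᶠ i in (S.U : Filter ℕ), σ i ∈ S.W i) → (∀ i, σ i ∉ T i) → ∀ o : κ, blk S xv σ o ∉ E := by
    intro j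
    induction j with
    | zero =>
      intro _
      exact ⟨∅, fun _ => ∅, by simp, by simp, by simp, by simp, by simp⟩
    | succ j ih =>
      intro hj
      obtain ⟨E, T, h1, h2, h3, h4, h5⟩ := ih (by omega)
      have hT : ∀ i, (T i).card ≤ s := fun i => (h1 i).trans (by omega)
      obtain ⟨⟨l, o⟩, hlo⟩ := hbad T hT
      have hw : ∀ l, ∀ᶠ i in (S.U : Filter ℕ), g i (T i) l ∈ S.W i := fun l =>
        Filter.Eventually.of_forall fun i => (hg i (T i) (hT i) l).1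
      have hnE : ∀ l o, blk S xv (fun i => g i (T i) l) o ∉ E := fun l o =>
        h5 _ (hw l) (fun i => (hg i (T i) (hT i) l).2) o
      have hmem : ∀ l o, blk S xv (fun i => g i (T i) l) o ∈ Set.range (FF S xv) := fun l o =>
        ⟨(ix S _ (hw l), o), (blk_ix S _ (hw l) o).symm⟩
      refine ⟨insert (blk S xv (fun i => g i (T i) l) o) E, fun i => insert (g i (T i) l) (T i), fun i => ?_,
        Set.insert_subset (hmem l o) h2, ?_, ?_, ?_⟩
      · exact (Finset.card_insert_le _ _).trans (Nat.succ_le_succ (h1 i))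
      · rw [Set.encard_insert_of_notMem (hnE l o), h3]
        rfl
      · refine step (Mg S.U) hME h4 ?_
        refine (Mg S.U).closure_subset_closure (Set.union_subset_union_right Y ?_) hlo
        rintro _ ⟨⟨⟨l', o'⟩, rfl⟩, hl⟩
        refine ⟨hmem l' o', ?_⟩
        rintro (h | h)
        · exact hl h
        · exact hnE l' o' h
      · intro σ hσ hσT o'
        rintro (h6 | h6)
        · have h7 := (blk_inj S hb hσ (hw l) h6).1
          obtain ⟨i, hi⟩ := h7.exists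
          exact hσT i (by
            rw [hi]
            exact Finset.mem_insert_self _ _)
        · exact h5 σ hσ (fun i hi => hσT i (Finset.mem_insert_of_mem hi)) o' h6
  obtain ⟨E, T, h1, h2, h3, h4, h5⟩ := key (s + 1) le_rfl
  have h6 := count (Mg S.U) hZ h2 h4
  have h7 : E.encard ≤ s := h6.trans ((Matroid.eRk_le_encard _ _).trans hY)
  rw [h3] at h7
  have h8 : s + 1 ≤ s := by exact_mod_cast h7
  omega

end Pool.Agent.L0h64.RP
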