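import Pool.Agent.L0h64.RP.Mat
import Pool.Agent.Y124.TL.Fi

/-!
# Exponentials of nilpotent matrices over the field of germs (helper64)
-/

set_option autoImplicit false

namespace Pool.Agent.L0h64.RP

open Filter

section Ex

open Pool.Agent.Y124.TL

variable {U : Ultrafilter ℕ} {n b : ℕ} {N : Matrix (Fin n) (Fin n) ℚ}

lemma EX_unit (hN : N ^ b = 0) (y : ℂ) : IsUnit (EX N y) := by
  refine IsUnit.of_mul_eq_one (EX N (-y)) ?_
  rw [EX_add hN, add_neg_cancel, EX_zero]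

lemma EX_apply (hN : N ^ b = 0) (y : ℂ) (p q : Fin n) :
    EX N y p q = ∑ a ∈ Finset.range b, (((a.factorial : ℚ)⁻¹ * (N ^ a) p q : ℚ) : ℂ) * y ^ a := by
  unfold EX
  rw [IsNilpotent.exp_eq_sum (nil_map hN y), Matrix.sum_apply]
  refine Finset.sum_congr rfl fun a _ => ?_
  rw [smul_pow, map_pow', Matrix.smul_apply, Matrix.smul_apply, Matrix.map_apply, Rat.smul_def, smul_eq_mul, eq_ratCast]
  push_cast
  ring

lemma EX_mem {X : Set (Kg U)} (hN : N ^ b = 0) {y : ℕ → ℂ} (hy : (y : Kg U) ∈ clF X) (p q : Fin n) :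
    gm U (fun i => EX N (y i)) p q ∈ clF X := by
  have h1 : gm U (fun i => EX N (y i)) p q = Germ.coeRingHom (U : Filter ℕ)
      (∑ a ∈ Finset.range b, (fun _ => (((a.factorial : ℚ)⁻¹ * (N ^ a) p q : ℚ) : ℂ)) * y ^ a) := by
    change ((fun i => EX N (y i) p q : ℕ → ℂ) : Kg U) = ((∑ a ∈ Finset.range b,
      (fun _ => (((a.factorial : ℚ)⁻¹ * (N ^ a) p q : ℚ) : ℂ)) * y ^ a : ℕ → ℂ) : Kg U)
    congr 1
    funext i
    rw [EX_apply hN, Finset.sum_apply]
    rfl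
  rw [h1, map_sum]
  refine (clF X).sum_mem fun a _ => ?_
  rw [map_mul, map_pow]
  exact (clF X).mul_mem (const_cl X _) ((clF X).pow_mem hy a)

end Ex

end Pool.Agent.L0h64.RP
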