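import Pool.Agent.L0h64.RP.Ger

/-!
# Germs of sequences of polynomials (helper64)
-/

set_option autoImplicit false

namespace Pool.Agent.L0h64.RP

open Filter MvPolynomial

variable {U : Ultrafilter ℕ}

/-- a sequence of polynomials of bounded degree is a polynomial over the field of germs -/
lemma poly_germ {m : Type} [Fintype m] (δ : ℕ) (Q : ℕ → MvPolynomial m ℂ) (hQ : ∀ i, (Q i).totalDegree ≤ δ) :
    ∃ p : MvPolynomial m (Kg U), (∀ b, p.coeff b = ((fun i => (Q i).coeff b : ℕ → ℂ) : Kg U)) ∧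
      ∀ y : m → ℕ → ℂ, eval (fun j => (y j : Kg U)) p = ((fun i => eval (fun j => y j i) (Q i) : ℕ → ℂ) : Kg U) := by
  classical
  obtain ⟨T, hT⟩ : ∃ T : Finset (m →₀ ℕ), T = (Finsupp.finite_of_degree_le (σ := m) δ).toFinset := ⟨_, rfl⟩
  have hsupp : ∀ i, (Q i).support ⊆ T := by
    intro i b hb
    rw [hT, Set.Finite.mem_toFinset]
    by_contra hcon
    rw [Set.mem_ofPred_eq, not_le] at hcon
    exact (mem_support_iff.1 hb) (coeff_eq_zero_of_totalDegree_lt (lt_of_le_of_lt (hQ i) hcon))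
  refine ⟨∑ b ∈ T, monomial b ((fun i => (Q i).coeff b : ℕ → ℂ) : Kg U), fun b => ?_, fun y => ?_⟩
  · rw [coeff_sum]
    by_cases hb : b ∈ T
    · rw [Finset.sum_eq_single_of_mem b hb]
      · rw [coeff_monomial, if_pos rfl]
      · intro b' _ hne
        rw [coeff_monomial, if_neg hne]
    · rw [Finset.sum_eq_zero]
      · have h1 : (fun i => (Q i).coeff b : ℕ → ℂ) = 0 := by
          funext i
          rw [Pi.zero_apply, ← notMem_support_iff]
          exact fun h => hb (hsupp i h)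
        rw [h1, Germ.coe_zero]
      · intro b' hb'
        rw [coeff_monomial, if_neg]
        rintro rfl
        exact hb hb'
  · rw [map_sum]
    have h1 : ∀ b ∈ T, eval (fun j => (y j : Kg U)) (monomial b ((fun i => (Q i).coeff b : ℕ → ℂ) : Kg U)) =
        Germ.coeRingHom (U : Filter ℕ) (fun i => (Q i).coeff b * ∏ j, y j i ^ b j) := by
      intro b _
      rw [eval_monomial, Finsupp.prod_fintype _ _ fun j => pow_zero _]
      have h2 : (fun i => (Q i).coeff b * ∏ j, y j i ^ b j : ℕ → ℂ) = (fun i => (Q i).coeff b) * ∏ j, y j ^ b j := by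
        funext i
        simp
      rw [h2, map_mul, map_prod]
      congr 1
    rw [Finset.sum_congr rfl h1, ← map_sum]
    have h2 : (∑ b ∈ T, fun i => (Q i).coeff b * ∏ j, y j i ^ b j : ℕ → ℂ) = fun i => eval (fun j => y j i) (Q i) := by
      funext i
      rw [Finset.sum_apply, eval_eq', ← Finset.sum_subset (hsupp i)]
      intro b _ hb
      rw [notMem_support_iff.1 hb, zero_mul]
    rw [h2]
    rfl

/-- specialisation of some of the variables -/
lemma spec {L : Type} [Field L] {s r : Type} (F : Subfield L) (ξ : s → L) (hξ : ∀ j, ξ j ∈ F)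
    (q : MvPolynomial (s ⊕ r) L) (hq : ∀ b, q.coeff b ∈ F) :
    ∃ p : MvPolynomial r L, (∀ b, p.coeff b ∈ F) ∧ ∀ u : r → L, eval u p = eval (Sum.elim ξ u) q := by
  have h2 : q ∈ Set.range (MvPolynomial.map (σ := s ⊕ r) (algebraMap F L)) := by
    rw [MvPolynomial.mem_range_map_iff_coeffs_subset]
    intro c hc
    rw [Finset.mem_coe, MvPolynomial.mem_coeffs_iff] at hc
    obtain ⟨b, _, hb⟩ := hc
    rw [hb]
    exact ⟨⟨_, hq b⟩, rfl⟩
  obtain ⟨q', rfl⟩ := h2
  refine ⟨map (algebraMap F L) (eval₂ C (Sum.elim (fun j => C (⟨ξ j, hξ j⟩ : F)) X) q'), fun b => ?_, fun u => ?_⟩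
  · rw [coeff_map]
    exact Subtype.mem _
  · rw [eval_map, eval_map]
    have h1 : eval₂ (algebraMap F L) u (eval₂ C (Sum.elim (fun j => C (⟨ξ j, hξ j⟩ : F)) X) q') =
        eval₂Hom (algebraMap F L) u (eval₂ C (Sum.elim (fun j => C (⟨ξ j, hξ j⟩ : F)) X) q') := rfl
    rw [h1, eval₂_comp_left]
    congr 1
    · ext a
      simp
    · funext j
      rcases j with j | j
      · simp only [Function.comp_apply, Sum.elim_inl, coe_eval₂Hom, eval₂_C]
        rfl
      · simp

/-- germs of polynomials over fields of algebraic numbers, with parameters -/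
lemma sp_germ {s r : Type} [Fintype s] [Fintype r] {δ D : ℕ} (x : s → ℕ → ℂ) (K : ℕ → IntermediateField ℚ ℂ)
    (hK : ∀ i, FiniteDimensional ℚ (K i)) (hKD : ∀ i, Module.finrank ℚ (K i) ≤ D)
    (Q : ∀ i, MvPolynomial (s ⊕ r) (K i)) (hQ : ∀ i, (Q i).totalDegree ≤ δ) (X : Set (Kg U))
    (hx : ∀ j, (x j : Kg U) ∈ clF X) :
    ∃ p : MvPolynomial r (Kg U), (∀ b, p.coeff b ∈ clF X) ∧ ∀ y : r → ℕ → ℂ,
      eval (fun j => (y j : Kg U)) p =
        ((fun i => aeval (Sum.elim (fun j => x j i) fun j => y j i) (Q i) : ℕ → ℂ) : Kg U) := by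
  obtain ⟨q, hq1, hq2⟩ := poly_germ (U := U) δ (fun i => map (algebraMap (K i) ℂ) (Q i)) fun i =>
    (Finset.sup_mono (support_map_subset _ _)).trans (hQ i)
  obtain ⟨p, hp1, hp2⟩ := spec (clF X) (fun j => (x j : Kg U)) hx q fun b => by
    rw [hq1]
    refine alg_germ (D := D) (fun i => ?_) X
    rw [coeff_map]
    have := hK i
    exact of_K (hKD i) _
  refine ⟨p, hp1, fun y => ?_⟩
  have h1 : (Sum.elim (fun j => (x j : Kg U)) fun j => (y j : Kg U)) = fun j => ((Sum.elim x y j : ℕ → ℂ) : Kg U) := by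
    funext j
    rcases j with j | j <;> rfl
  rw [hp2, h1, hq2]
  congr 1
  funext i
  rw [aeval_def, eval_map]
  congr 1
  funext j
  rcases j with j | j <;> rfl

end Pool.Agent.L0h64.RP
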