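import Pool.Agent.L0h64.RP.Mat
import Pool.Agent.L0h64.RP.Bas
import Pool.Agent.L0h64.RP.Pol

/-!
# Values over arbitrary fields: all but a bounded number of arguments, the general theorem (helper64)
-/

set_option autoImplicit false

namespace Pool.Agent.L0h64.RP

open Filter Pool.Agent.L0h64.ZV

/-- `z` is algebraic over `K(x_1, …, x_s)` by a relation of degree at most `δ` -/
def AlgOver {s : ℕ} (δ : ℕ) (K : IntermediateField ℚ ℂ) (x : Fin s → ℂ) (z : ℂ) : Prop :=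
  ∃ L : MvPolynomial (Fin s ⊕ Fin 1) K, L.totalDegree ≤ δ ∧ MvPolynomial.aeval (Sum.elim x fun _ => z) L = 0 ∧
    ∃ w : Fin 1 → ℂ, MvPolynomial.aeval (Sum.elim x w) L ≠ 0

/-- `z_1, …, z_r` satisfy no polynomial relation of degree at most `δ` over `K(x_1, …, x_s)` -/
def IndOver {s r : ℕ} (δ : ℕ) (K : IntermediateField ℚ ℂ) (x : Fin s → ℂ) (z : Fin r → ℂ) : Prop :=
  ∀ Q : MvPolynomial (Fin s ⊕ Fin r) K, Q.totalDegree ≤ δ → MvPolynomial.aeval (Sum.elim x z) Q = 0 →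
    ∀ y : Fin r → ℂ, MvPolynomial.aeval (Sum.elim x y) Q = 0

section cl

variable {U : Ultrafilter ℕ}

lemma cl_absorb (X Z : Set (Kg U)) : (Mg U).closure ((Mg U).closure X ∪ Z) ⊆ (Mg U).closure (X ∪ Z) :=
  cl_le (Set.union_subset (cl_mono Set.subset_union_left) (Set.subset_union_right.trans (sub_cl _)))

/-- algebraic germs -/
lemma algOver_mem {s δ D : ℕ} (x : ℕ → Fin s → ℂ) (K : ℕ → IntermediateField ℚ ℂ)
    (hK : ∀ i, FiniteDimensional ℚ (K i)) (hKD : ∀ i, Module.finrank ℚ (K i) ≤ D) (c : ℕ → ℂ)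
    (hc : ∀ i, AlgOver δ (K i) (x i) (c i)) (X : Set (Kg U)) (hx : ∀ j, ((fun i => x i j : ℕ → ℂ) : Kg U) ∈ clF X) :
    (c : Kg U) ∈ clF X := by
  choose L hLd hL0 w hLw using hc
  obtain ⟨p, hp1, hp2⟩ := sp_germ (U := U) (fun j i => x i j) K hK hKD L hLd X hx
  have h1 := hp2 fun _ => c
  have h2 := hp2 fun j i => w i j
  have h3 : p ≠ 0 := by
    rintro rfl
    rw [map_zero] at h2
    have h4 : ((fun i => MvPolynomial.aeval (Sum.elim (fun j => x i j) fun j => w i j) (L i) : ℕ → ℂ) : Kg U) =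
        ((0 : ℕ → ℂ) : Kg U) := h2.symm
    rw [Germ.coe_eq] at h4
    obtain ⟨i, hi⟩ := h4.exists
    exact hLw i hi
  obtain ⟨j, hj⟩ := dep (R := Rg U) ((Mg U).closure X) (fun _ : Fin 1 => (c : Kg U))
    (fun _ _ _ => Subsingleton.elim _ _) p (fun b => Algebra.subset_adjoin (hp1 b)) h3 (by
      rw [h1]
      have h4 : (fun i => MvPolynomial.aeval (Sum.elim (fun j => x i j) fun _ => c i) (L i) : ℕ → ℂ) = 0 :=
        funext hL0
      rw [h4]
      rfl)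
  have h5 : (Set.range (fun _ : Fin 1 => (c : Kg U)) \ {(c : Kg U)}) = ∅ := by
    ext a
    simp
  rw [h5, Set.union_empty] at hj
  rw [Matroid.closure_closure] at hj
  exact hj

end cl

variable {R : ℕ}

/-- the parameters -/
noncomputable def YY (S : Wn R) {s e : ℕ} (ex : ℕ → Fin e → ℂ) (x : ℕ → Fin s → ℂ) : Set (Kg S.U) :=
  Set.range (Sum.elim (fun j => ((fun i => x i j : ℕ → ℂ) : Kg S.U)) fun j => ((fun i => ex (S.t i) j : ℕ → ℂ) : Kg S.U) :
    Fin s ⊕ Fin e → Kg S.U)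

lemma YY_card (S : Wn R) {s e : ℕ} (ex : ℕ → Fin e → ℂ) (x : ℕ → Fin s → ℂ) : (YY S ex x).encard ≤ (s + e : ℕ) := by
  unfold YY
  rw [← Set.image_univ]
  refine (Set.encard_image_le _ _).trans ?_
  rw [Set.encard_univ, ENat.card_eq_coe_fintype_card]
  simp

/-- the data of a bad tuple -/
structure BadD {κ ι Dat : Type} [Fintype κ] {k s : ℕ} (δ : ℕ) (ok : ℕ → (Fin s → ℂ) → (Fin k → ℕ) → Dat → Prop)
    (fld : Dat → IntermediateField ℚ ℂ) (z : ℕ → (Fin k → ℕ) → Dat → ι → ℂ) (t : ℕ) (W : Set ℕ) (x : Fin s → ℂ)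
    (S : Finset ℕ) where
  g : Fin k → ℕ
  inj : Function.Injective g
  mem : ∀ l, g l ∈ W ∧ g l ∉ S
  dat : Dat
  hok : ok t x g dat
  bad : ∀ σ : Fin (k * Fintype.card κ) → ι, Function.Injective σ → ¬ IndOver δ (fld dat) x fun i => z t g dat (σ i)

/-- **the general theorem** -/
theorem gen_rel {κ : Type} [Fintype κ] {xv : ℕ → ℕ → κ → ℂ} (hb : Base R xv) {e : ℕ} (ex : ℕ → Fin e → ℂ)
    {k s δ D : ℕ} {ι Dat : Type} (ok : ℕ → (Fin s → ℂ) → (Fin k → ℕ) → Dat → Prop) (fld : Dat → IntermediateField ℚ ℂ)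
    (hfld : ∀ t x g dat, ok t x g dat → FiniteDimensional ℚ (fld dat) ∧ Module.finrank ℚ (fld dat) ≤ D)
    (z : ℕ → (Fin k → ℕ) → Dat → ι → ℂ)
    (hcl : ∀ (S : Wn R) (x : ℕ → Fin s → ℂ) (g : ℕ → Fin k → ℕ) (dat : ℕ → Dat), (∀ i l, g i l ∈ S.W i) →
      (∀ i, ok (S.t i) (x i) (g i) (dat i)) → ∀ X : Set (Kg S.U), (∀ j, ((fun i => x i j : ℕ → ℂ) : Kg S.U) ∈ clF X) →
      (∀ j, ((fun i => ex (S.t i) j : ℕ → ℂ) : Kg S.U) ∈ clF X) →
      (∀ y, ((fun i => z (S.t i) (g i) (dat i) y : ℕ → ℂ) : Kg S.U) ∈ clF X) →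
      ∀ l o, blk S xv (fun i => g i l) o ∈ clF X) :
    ∃ E : ℕ, ∀ H t : ℕ, (H + 2) ^ E ≤ t → ∀ W : Set ℕ, SepW R H W → ∀ x : Fin s → ℂ, ∃ S : Finset ℕ, S.card ≤ s + e ∧
      ∀ g : Fin k → ℕ, Function.Injective g → (∀ l, g l ∈ W ∧ g l ∉ S) → ∀ dat : Dat, ok t x g dat →
        ∃ σ : Fin (k * Fintype.card κ) → ι, Function.Injective σ ∧ IndOver δ (fld dat) x fun i => z t g dat (σ i) := by
  classical
  by_contra hcon
  have h1 : ∀ i : ℕ, ∃ (H t : ℕ) (W : Set ℕ) (x : Fin s → ℂ), (H + 2) ^ i ≤ t ∧ SepW R H W ∧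
      ∀ S : Finset ℕ, S.card ≤ s + e → Nonempty (BadD (κ := κ) δ ok fld z t W x S) := by
    intro i
    by_contra h2
    apply hcon
    refine ⟨i, fun H t ht W hW x => ?_⟩
    by_contra h3
    apply h2
    refine ⟨H, t, W, x, ht, hW, fun S hS => ?_⟩
    by_contra h4
    apply h3
    refine ⟨S, hS, fun g hg hgW dat hok => ?_⟩
    by_contra h5
    apply h4
    exact ⟨⟨g, hg, hgW, dat, hok, fun σ hσ hI => h5 ⟨σ, hσ, hI⟩⟩⟩
  choose H t W x hHt hW hbad using h1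
  have hbd : ∀ (i : ℕ) (S : Finset ℕ), S.card ≤ s + e → BadD (κ := κ) δ ok fld z (t i) (W i) (x i) S :=
    fun i S hS => Classical.choice (hbad i S hS)
  obtain ⟨S, hSU, hSt, hSW⟩ : ∃ S : Wn R, S.U = hyperfilter ℕ ∧ S.t = t ∧ S.W = W :=
    ⟨⟨hyperfilter ℕ, Nat.hyperfilter_le_atTop, H, t, hHt, W, hW⟩, rfl, rfl, rfl⟩
  subst hSt hSW
  obtain ⟨G, hG⟩ : ∃ G : ℕ → Finset ℕ → Fin k → ℕ, ∀ (i : ℕ) (T : Finset ℕ) (hT : T.card ≤ s + e), G i T = (hbd i T hT).g :=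
    ⟨fun i T => if hT : T.card ≤ s + e then (hbd i T hT).g else fun _ => 0, fun i T hT => dif_pos hT⟩
  refine exch S hb (YY S ex x) (s + e) (YY_card S ex x) G (fun i T hT l => ?_) fun T hT => ?_
  · rw [hG i T hT]
    exact (hbd i T hT).mem l
  · have hGi : ∀ i, G i (T i) = (hbd i (T i) (hT i)).g := fun i => hG i (T i) (hT i)
    obtain ⟨β, hβ⟩ : ∃ β : ∀ i, BadD (κ := κ) δ ok fld z (S.t i) (S.W i) (x i) (T i), β = fun i => hbd i (T i) (hT i) :=
      ⟨_, rfl⟩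
    have hGβ : ∀ l, (fun i => G i (T i) l) = fun i => (β i).g l := fun l => by
      funext i
      rw [hGi, hβ]
    simp only [hGβ]
    by_contra hno
    push Not at hno
    obtain ⟨y, hy⟩ : ∃ y : ι → Kg S.U, y = fun a => ((fun i => z (S.t i) (β i).g (β i).dat a : ℕ → ℂ) : Kg S.U) :=
      ⟨_, rfl⟩
    have hinj := (bind S hb (fun l i => (β i).g l) (fun l => Filter.Eventually.of_forall fun i => ((β i).mem l).1)
      (fun l l' hl => Filter.Eventually.of_forall fun i he => hl ((β i).inj he))).injective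
    have hr : ((k * Fintype.card κ : ℕ) : ℕ∞) ≤ (Set.range (fun lo : Fin k × κ =>
        blk S xv (fun i => (β i).g lo.1) lo.2)).encard := by
      have h2 := hinj.encard_range
      rw [ENat.card_eq_coe_fintype_card] at h2
      simpa using h2
    have hYx : ∀ j, ((fun i => x i j : ℕ → ℂ) : Kg S.U) ∈ YY S ex x := fun j => ⟨Sum.inl j, rfl⟩
    have hYe : ∀ j, ((fun i => ex (S.t i) j : ℕ → ℂ) : Kg S.U) ∈ YY S ex x := fun j => ⟨Sum.inr j, rfl⟩
    obtain ⟨σ, hσ, hσ2⟩ := mat1 (Mg S.U) rfl (Y := YY S ex x) y (k * Fintype.card κ) hr (by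
      rintro _ ⟨lo, rfl⟩
      exact hno lo) (by
      rintro _ ⟨⟨l, o⟩, rfl⟩
      refine hcl S x (fun i => (β i).g) (fun i => (β i).dat) (fun i l => ((β i).mem l).1) (fun i => (β i).hok)
        (YY S ex x ∪ Set.range y) (fun j => sub_cl _ (Or.inl (hYx j))) (fun j => sub_cl _ (Or.inl (hYe j)))
        (fun a => sub_cl _ (Or.inr ⟨a, ?_⟩)) l o
      rw [hy])
    have hσi : Function.Injective σ := fun i j hij => hσ (by
      change y (σ i) = y (σ j)
      rw [hij])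
    have hbad2 : ∀ i, ∃ Q : MvPolynomial (Fin s ⊕ Fin (k * Fintype.card κ)) (fld (β i).dat), Q.totalDegree ≤ δ ∧
        MvPolynomial.aeval (Sum.elim (x i) fun j => z (S.t i) (β i).g (β i).dat (σ j)) Q = 0 ∧
        ∃ y : Fin (k * Fintype.card κ) → ℂ, MvPolynomial.aeval (Sum.elim (x i) y) Q ≠ 0 := by
      intro i
      have h1 := (β i).bad σ hσi
      unfold IndOver at h1
      push Not at h1
      exact h1
    choose Q hQd hQ0 w hQw using hbad2
    obtain ⟨p, hp1, hp2⟩ := sp_germ (U := S.U) (fun j i => x i j) (fun i => fld (β i).dat)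
      (fun i => (hfld _ _ _ _ (β i).hok).1) (fun i => (hfld _ _ _ _ (β i).hok).2) Q hQd (YY S ex x)
      fun j => sub_cl _ (hYx j)
    have hp0 : p ≠ 0 := by
      rintro rfl
      have h2 := hp2 fun j i => w i j
      rw [map_zero] at h2
      have h4 : ((fun i => MvPolynomial.aeval (Sum.elim (fun j => x i j) fun j => w i j) (Q i) : ℕ → ℂ) : Kg S.U) =
          ((0 : ℕ → ℂ) : Kg S.U) := h2.symm
      rw [Germ.coe_eq] at h4
      obtain ⟨i, hi⟩ := h4.exists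
      exact hQw i hi
    obtain ⟨j, hj⟩ := dep (R := Rg S.U) ((Mg S.U).closure (YY S ex x)) (fun j => y (σ j)) hσ p
      (fun b => Algebra.subset_adjoin (hp1 b)) hp0 (by
        rw [hy, hp2 fun j i => z (S.t i) (β i).g (β i).dat (σ j)]
        have h4 : (fun i => MvPolynomial.aeval (Sum.elim (fun j => x i j) fun j => z (S.t i) (β i).g (β i).dat (σ j))
            (Q i) : ℕ → ℂ) = 0 := funext hQ0
        rw [h4]
        rfl)
    exact hσ2 j (cl_absorb _ _ hj)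

end Pool.Agent.L0h64.RP
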