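import Pool.Agent.L0h64.RP.Exm
import Pool.Agent.L0h64.RP.Gen

/-!
# Periods over arbitrary fields: all but a bounded number of fibres near a degenerate fibre (helper64)
-/

set_option autoImplicit false

namespace Pool.Agent.L0h64.RP

open Filter Pool.Agent.L0h64.ZV Pool.Agent.Y124.TL

/-- the logarithms and the entries of the matrices -/
def zv {n k : ℕ} (L : Fin k → ℂ) (P : Fin k → Matrix (Fin n) (Fin n) ℂ) (x : Fin k × Option (Fin n × Fin n)) : ℂ :=
  x.2.elim (L x.1) fun p => P x.1 p.1 p.2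

/-- the logarithm of `m` -/
noncomputable def lg (m : ℕ) : ℂ := ((Real.log (m : ℝ) : ℝ) : ℂ)

/-- the matrices `A_l exp (-N log m_l) Z(1 / m_l) B_l` -/
noncomputable def PM {n k r : ℕ} (N : Matrix (Fin n) (Fin n) ℚ) (h : Fin r → PowerSeries ℚ) (ψ : Fin n × Fin n → Fin r)
    (A B : Fin k → Matrix (Fin n) (Fin n) ℂ) (m : Fin k → ℕ) (l : Fin k) : Matrix (Fin n) (Fin n) ℂ :=
  A l * EX N (-lg (m l)) * Zr h ψ (m l : ℝ) * B l

/-- fields and bases -/
structure PD (n k : ℕ) where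
  K : IntermediateField ℚ ℂ
  A : Fin k → Matrix (Fin n) (Fin n) ℂ
  B : Fin k → Matrix (Fin n) (Fin n) ℂ

/-- the conditions -/
def PD.ok {n k s : ℕ} (δ D : ℕ) (x : Fin s → ℂ) (p : PD n k) : Prop :=
  (FiniteDimensional ℚ p.K ∧ Module.finrank ℚ p.K ≤ D) ∧ (∀ l, IsUnit (p.A l)) ∧ (∀ l, IsUnit (p.B l)) ∧
    (∀ l i j, AlgOver δ p.K x (p.A l i j)) ∧ ∀ l i j, AlgOver δ p.K x (p.B l i j)

variable {R n r d k δ D s : ℕ} {N : Matrix (Fin n) (Fin n) ℚ} {h : Fin r → PowerSeries ℚ} {ψ : Fin n × Fin n → Fin r}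

/-- the values of the family -/
noncomputable abbrev xw (h : Fin r → PowerSeries ℚ) (T₀ : Fin d → Fin r) : ℕ → ℕ → Option (Fin d) → ℂ :=
  fun t g o => xv h T₀ t g o

/-- the shifts are smaller than `t` -/
lemma Wn.lt (S : Wn R) (g : ℕ → ℕ) (hg : ∀ i, g i ∈ S.W i) : ∀ᶠ i in (S.U : Filter ℕ), g i < S.t i := by
  filter_upwards [S.hU (eventually_ge_atTop 1)] with i hi
  have h1 := ((S.hW i).1 _ (hg i)).2
  have h2 : (S.H i + 2) ^ 1 ≤ (S.H i + 2) ^ i := Nat.pow_le_pow_right (by omega) hi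
  have h3 := S.hHt i
  rw [pow_one] at h2
  omega

lemma blk_log (S : Wn R) (T₀ : Fin d → Fin r) (g : ℕ → ℕ) (hg : ∀ i, g i ∈ S.W i) :
    blk S (xw h T₀) g none = ((fun i => lg (S.t i - g i) : ℕ → ℂ) : Kg S.U) - ((fun i => lg (S.t i) : ℕ → ℂ) : Kg S.U) := by
  rw [← Germ.coe_sub]
  unfold blk
  rw [Germ.coe_eq]
  filter_upwards [S.lt g hg] with i hi
  have h1 : (0 : ℝ) < S.t i := by
    have : 0 < S.t i := by omega
    exact_mod_cast this
  have h2 : (0 : ℝ) < ((S.t i - g i : ℕ) : ℝ) := by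
    have : 0 < S.t i - g i := by omega
    exact_mod_cast this
  have h3 : (1 : ℝ) - g i / S.t i = ((S.t i - g i : ℕ) : ℝ) / S.t i := by
    rw [Nat.cast_sub hi.le]
    field_simp
  change ((Real.log (1 - g i / S.t i) : ℝ) : ℂ) = lg (S.t i - g i) - lg (S.t i)
  rw [h3, Real.log_div h2.ne' h1.ne', Complex.ofReal_sub]
  rfl

/-- **the main theorem for families of G-functions** -/
theorem fin_rel {Tp : Polynomial ℤ} {Am : Fin r → Fin r → Polynomial ℤ} (hF : GF Tp Am h)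
    (hψ : Function.Surjective ψ) {b : ℕ} (hN : N ^ b = 0) (T₀ : Fin d → Fin r)
    (hT : AlgebraicIndependent (Polynomial ℚ) (fun i => h (T₀ i))) :
    ∃ R : ℕ, ∀ k δ D s : ℕ, ∃ E : ℕ, ∀ H t : ℕ, (H + 2) ^ E ≤ t → ∀ W : Set ℕ, SepW R H W → ∀ x : Fin s → ℂ,
      ∃ S : Finset ℕ, S.card ≤ s + 1 ∧ ∀ g : Fin k → ℕ, Function.Injective g → (∀ l, g l ∈ W ∧ g l ∉ S) →
        ∀ (K : IntermediateField ℚ ℂ) [FiniteDimensional ℚ K], Module.finrank ℚ K ≤ D →
        ∀ A B : Fin k → Matrix (Fin n) (Fin n) ℂ, (∀ l, IsUnit (A l)) → (∀ l, IsUnit (B l)) →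
        (∀ l i j, AlgOver δ K x (A l i j)) → (∀ l i j, AlgOver δ K x (B l i j)) →
        ∃ σ : Fin (k * (d + 1)) → Fin k × Option (Fin n × Fin n), Function.Injective σ ∧
          IndOver δ K x fun i => zv (fun l => lg (t - g l)) (PM N h ψ A B fun l => t - g l) (σ i) := by
  classical
  obtain ⟨R, hbase⟩ := base hF
  have hb : Base R (xw h T₀) := fun N k => hbase T₀ hT N k
  refine ⟨R, fun k δ D s => ?_⟩
  obtain ⟨E, hE⟩ := gen_rel hb (e := 1) (fun t _ => lg t) (k := k) (s := s) (δ := δ) (D := D)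
    (ι := Fin k × Option (Fin n × Fin n)) (Dat := PD n k) (fun _ x _ dat => dat.ok δ D x) (fun dat => dat.K)
    (fun _ _ _ _ h => h.1) (fun t g dat => zv (fun l => lg (t - g l)) (PM N h ψ dat.A dat.B fun l => t - g l)) (by
    intro S x g dat hgW hok X hx hex hz l o
    have hL : ((fun i => lg (S.t i - g i l) : ℕ → ℂ) : Kg S.U) ∈ clF X := hz (l, none)
    rcases o with _ | p
    · rw [blk_log S T₀ (fun i => g i l) fun i => hgW i l]
      exact (clF _).sub_mem hL (hex 0)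
    · obtain ⟨⟨a, a'⟩, ha⟩ := hψ (T₀ p)
      have h1 : blk S (xw h T₀) (fun i => g i l) (some p) =
          gm S.U (fun i => Zr h ψ ((S.t i - g i l : ℕ) : ℝ)) a a' := by
        change ((fun i => hv h ((S.t i - g i l : ℕ) : ℝ) (T₀ p) : ℕ → ℂ) : Kg S.U) =
          ((fun i => hv h ((S.t i - g i l : ℕ) : ℝ) (ψ (a, a')) : ℕ → ℂ) : Kg S.U)
        rw [ha]
      rw [h1]
      refine mem_mid (clF X) (A := gm S.U fun i => (dat i).A l)
        (E := gm S.U fun i => EX N (-lg (S.t i - g i l))) (B := gm S.U fun i => (dat i).B l)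
        (fun a b => algOver_mem x (fun i => (dat i).K) (fun i => (hok i).1.1) (fun i => (hok i).1.2) _
          (fun i => (hok i).2.2.2.1 l a b) _ hx)
        (fun a b => EX_mem hN ?_ a b)
        (fun a b => algOver_mem x (fun i => (dat i).K) (fun i => (hok i).1.1) (fun i => (hok i).1.2) _
          (fun i => (hok i).2.2.2.2 l a b) _ hx)
        (fun a b => ?_) (gm_unit fun i => (hok i).2.1 l) (gm_unit fun i => EX_unit hN _)
        (gm_unit fun i => (hok i).2.2.1 l) a a'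
      · have h2 : ((fun i => -lg (S.t i - g i l) : ℕ → ℂ) : Kg S.U) =
            -((fun i => lg (S.t i - g i l) : ℕ → ℂ) : Kg S.U) := by
          rw [← Germ.coe_neg]
          rfl
        rw [h2]
        exact (clF _).neg_mem hL
      · rw [← gm_mul, ← gm_mul, ← gm_mul]
        exact hz (l, some (a, b)))
  refine ⟨E, fun H t ht W hW x => ?_⟩
  obtain ⟨S, hS, h1⟩ := hE H t ht W hW x
  refine ⟨S, hS, fun g hg hgW K hK hKD A B uA uB aA aB => ?_⟩
  obtain ⟨σ, hσ, hI⟩ := h1 g hg hgW ⟨K, A, B⟩ ⟨⟨hK, hKD⟩, uA, uB, aA, aB⟩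
  have hcard : k * (d + 1) = k * Fintype.card (Option (Fin d)) := by
    rw [Fintype.card_option, Fintype.card_fin]
  refine ⟨fun i => σ (Fin.cast hcard i), fun i j hij => Fin.cast_injective hcard (hσ hij), fun Q hQ hQ0 y => ?_⟩
  have h2 := hI (MvPolynomial.rename (Sum.map id (Fin.cast hcard)) Q)
    ((MvPolynomial.totalDegree_rename_le _ _).trans hQ) (by
    rw [MvPolynomial.aeval_rename, ← hQ0]
    congr 1
    congr 1
    funext i
    rcases i with i | i <;> rfl) (fun j => y (Fin.cast hcard.symm j))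
  rw [MvPolynomial.aeval_rename] at h2
  rw [← h2]
  congr 1
  congr 1
  funext i
  rcases i with i | i <;> rfl

end Pool.Agent.L0h64.RP
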