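import Pool.Agent.L0h64.ZV.Abs

/-!
# The field of germs of sequences of complex numbers (helper64)
-/

set_option autoImplicit false

namespace Pool.Agent.L0h64.RP

open Filter Pool.Agent.L0h64.ZV

variable (U : Ultrafilter ℕ)

/-- the field of germs of sequences of complex numbers -/
abbrev Kg : Type := Germ (U : Filter ℕ) ℂ

/-- the field of germs of sequences of rational numbers -/
def Rg : Subfield (Kg U) where
  carrier := {g | ∃ q : ℕ → ℚ, ((fun i => (q i : ℂ) : ℕ → ℂ) : Kg U) = g}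
  mul_mem' := by
    rintro _ _ ⟨p, rfl⟩ ⟨q, rfl⟩
    refine ⟨p * q, ?_⟩
    rw [← Germ.coe_mul]
    congr 1
    funext i
    simp
  one_mem' := ⟨1, by
    rw [← Germ.coe_one]
    congr 1
    funext i
    simp⟩
  add_mem' := by
    rintro _ _ ⟨p, rfl⟩ ⟨q, rfl⟩
    refine ⟨p + q, ?_⟩
    rw [← Germ.coe_add]
    congr 1
    funext i
    simp
  zero_mem' := ⟨0, by
    rw [← Germ.coe_zero]
    congr 1
    funext i
    simp⟩
  neg_mem' := by
    rintro _ ⟨q, rfl⟩
    refine ⟨-q, ?_⟩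
    rw [← Germ.coe_neg]
    congr 1
    funext i
    simp
  inv_mem' := by
    rintro _ ⟨q, rfl⟩
    refine ⟨q⁻¹, ?_⟩
    rw [← Germ.coe_inv]
    congr 1
    funext i
    simp

variable {U}

lemma rat_mem (q : ℕ → ℚ) : ((fun i => (q i : ℂ) : ℕ → ℂ) : Kg U) ∈ Rg U := ⟨q, rfl⟩

variable (U)

/-- the matroid of algebraic dependence over the germs of rational sequences -/
noncomputable abbrev Mg : Matroid (Kg U) := AlgebraicIndependent.matroid (Rg U) (Kg U)

variable {U}

lemma mem_M (X : Set (Kg U)) (a : Kg U) : a ∈ (Mg U).closure X ↔ IsAlgebraic (Algebra.adjoin (Rg U) X) a :=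
  mem_cl_iff X a

lemma alg_M {X : Set (Kg U)} {a : Kg U} (h : IsAlgebraic (Rg U) a) : a ∈ (Mg U).closure X := by
  rw [mem_M]
  exact h.extendScalars (R := Rg U) (S := Algebra.adjoin (Rg U) X)
    (algebraMap (Rg U) (Algebra.adjoin (Rg U) X)).injective

/-- the closure of a set as a subfield -/
noncomputable def clF (X : Set (Kg U)) : Subfield (Kg U) where
  carrier := (Mg U).closure X
  mul_mem' := fun {a b} ha hb => by
    rw [mem_M] at ha hb ⊢
    exact ha.mul hb
  one_mem' := by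
    rw [mem_M]
    exact isAlgebraic_one
  add_mem' := fun {a b} ha hb => by
    rw [mem_M] at ha hb ⊢
    exact ha.add hb
  zero_mem' := by
    rw [mem_M]
    exact isAlgebraic_zero
  neg_mem' := fun {a} ha => by
    rw [mem_M] at ha ⊢
    exact ha.neg
  inv_mem' := fun a ha => by
    rw [mem_M] at ha ⊢
    exact ha.inv

lemma mem_clF {X : Set (Kg U)} {a : Kg U} : a ∈ clF X ↔ a ∈ (Mg U).closure X := Iff.rfl

lemma sub_cl (X : Set (Kg U)) : X ⊆ (Mg U).closure X := (Mg U).subset_closure X (by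
  rw [AlgebraicIndependent.matroid_e]
  exact Set.subset_univ _)

lemma cl_mono {X Y : Set (Kg U)} (h : X ⊆ Y) : (Mg U).closure X ⊆ (Mg U).closure Y :=
  (Mg U).closure_subset_closure h

lemma cl_le {X Y : Set (Kg U)} (h : X ⊆ (Mg U).closure Y) : (Mg U).closure X ⊆ (Mg U).closure Y :=
  ((Mg U).closure_subset_closure h).trans ((Mg U).closure_closure _).subset

lemma rat_cl (X : Set (Kg U)) (q : ℕ → ℚ) : ((fun i => (q i : ℂ) : ℕ → ℂ) : Kg U) ∈ clF X :=
  alg_M (isAlgebraic_algebraMap (⟨_, rat_mem q⟩ : Rg U))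

lemma const_cl (X : Set (Kg U)) (q : ℚ) : ((fun _ => (q : ℂ) : ℕ → ℂ) : Kg U) ∈ clF X :=
  rat_cl X fun _ => q

/-- germs of sequences of algebraic numbers of bounded degree -/
lemma alg_germ {D : ℕ} {c : ℕ → ℂ} (hc : ∀ i, ∃ p : Polynomial ℚ, p ≠ 0 ∧ p.natDegree ≤ D ∧
    Polynomial.aeval (c i) p = 0) (X : Set (Kg U)) : (c : Kg U) ∈ clF X := by
  classical
  choose p hp0 hpd hp using hc
  apply alg_M
  let a : ℕ → Rg U := fun j => ⟨((fun i => (((p i).coeff j : ℚ) : ℂ) : ℕ → ℂ) : Kg U), rat_mem _⟩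
  refine ⟨∑ j ∈ Finset.range (D + 1), Polynomial.C (a j) * Polynomial.X ^ j, ?_, ?_⟩
  · intro h0
    have h1 : ∀ j ∈ Finset.range (D + 1), ∀ᶠ i in (U : Filter ℕ), (p i).coeff j = 0 := by
      intro j hj
      have h2 := congrArg (fun P : Polynomial (Rg U) => P.coeff j) h0
      simp only [Polynomial.finsetSum_coeff, Polynomial.coeff_C_mul, Polynomial.coeff_X_pow, Polynomial.coeff_zero,
        mul_ite, mul_one, mul_zero, Finset.sum_ite_eq, hj, if_true] at h2
      have h3 : ((fun i => (((p i).coeff j : ℚ) : ℂ) : ℕ → ℂ) : Kg U) = ((0 : ℕ → ℂ) : Kg U) :=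
        congrArg Subtype.val h2
      rw [Germ.coe_eq] at h3
      filter_upwards [h3] with i hi
      rw [Pi.zero_apply] at hi
      exact_mod_cast hi
    have h4 := (Filter.eventually_all_finset _).2 h1
    obtain ⟨i, hi⟩ := h4.exists
    apply hp0 i
    ext j
    rw [Polynomial.coeff_zero]
    by_cases hj : j < D + 1
    · exact hi j (Finset.mem_range.2 hj)
    · exact Polynomial.coeff_eq_zero_of_natDegree_lt (lt_of_le_of_lt (hpd i) (by omega))
  · rw [map_sum]
    have h1 : ∀ j, Polynomial.aeval (c : Kg U) (Polynomial.C (a j) * Polynomial.X ^ j) =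
        Germ.coeRingHom (U : Filter ℕ) (fun i => (((p i).coeff j : ℚ) : ℂ) * c i ^ j) := by
      intro j
      rw [map_mul, map_pow, Polynomial.aeval_C, Polynomial.aeval_X]
      rfl
    rw [Finset.sum_congr rfl fun j _ => h1 j, ← map_sum]
    have h2 : (∑ j ∈ Finset.range (D + 1), fun i => (((p i).coeff j : ℚ) : ℂ) * c i ^ j : ℕ → ℂ) = 0 := by
      funext i
      rw [Finset.sum_apply, Pi.zero_apply, ← hp i, Polynomial.aeval_eq_sum_range' (lt_of_le_of_lt (hpd i) (Nat.lt_succ_self D))]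
      refine Finset.sum_congr rfl fun j _ => ?_
      rw [Rat.smul_def]
    rw [h2, map_zero]

lemma of_K {K : IntermediateField ℚ ℂ} [FiniteDimensional ℚ K] {D : ℕ} (hK : Module.finrank ℚ K ≤ D) (c : K) :
    ∃ p : Polynomial ℚ, p ≠ 0 ∧ p.natDegree ≤ D ∧ Polynomial.aeval (c : ℂ) p = 0 := by
  refine ⟨minpoly ℚ c, minpoly.ne_zero (Algebra.IsIntegral.isIntegral c), (minpoly.natDegree_le c).trans hK, ?_⟩
  have h1 := congrArg (algebraMap K ℂ) (minpoly.aeval ℚ c)
  rw [map_zero, ← Polynomial.aeval_algebraMap_apply] at h1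
  exact h1

end Pool.Agent.L0h64.RP
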