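import Pool.Agent.L0h64.RP.Gen
import Pool.Agent.Y124.TH.Fin
import Pool.Agent.Y124.TD.Ap3

/-!
# Periods of hyperelliptic curves over arbitrary fields (helper64)
-/

set_option autoImplicit false

open Matrix Polynomial Module Filter

namespace Pool.Agent.L0h64.RP.Hel

open Pool.Agent.Y118.HP Pool.Agent.Y118.HG Pool.Agent.Y113 Pool.Agent.Y37.GF Pool.Agent.Y124.TD Pool.Agent.Y124.TH

variable {n k s δ D : ℕ}

/-- fields and bases -/
structure PD (n k : ℕ) where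
  K : IntermediateField ℚ ℂ
  A : Fin k → Matrix (Fin n) (Fin n) ℂ
  B : Fin k → Matrix (Fin n) (Fin n) ℂ

/-- the conditions -/
def PD.ok (C₀ : Matrix (Fin n) (Fin n) ℂ) (δ D : ℕ) (x : Fin s → ℂ) (p : PD n k) : Prop :=
  (FiniteDimensional ℚ p.K ∧ Module.finrank ℚ p.K ≤ D) ∧ (∀ l, IsUnit (p.A l)) ∧ (∀ l, IsUnit (p.B l)) ∧
    (∀ l i j, AlgOver δ p.K x (p.A l i j)) ∧ (∀ l i j, AlgOver δ p.K x (p.B l i j)) ∧
      ∀ i j, AlgOver δ p.K x (C₀ i j)

lemma gm_congr {U : Ultrafilter ℕ} {A B : ℕ → Matrix (Fin n) (Fin n) ℂ} (h : ∀ᶠ i in (U : Filter ℕ), A i = B i) :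
    gm U A = gm U B := by
  ext a b
  change ((fun i => A i a b : ℕ → ℂ) : Kg U) = ((fun i => B i a b : ℕ → ℂ) : Kg U)
  rw [Germ.coe_eq]
  filter_upwards [h] with i hi
  rw [hi]

/-- **the theorem for hyperelliptic curves** -/
theorem hel_rel (hn : Even n) (a : Fin n → ℝ) (f : ℚ[X]) (hf : f.map (algebraMap ℚ ℝ) = ∏ i, (X - C (a i)))
    (m : Fin (n + 1)) (h0 : StrictMono (er a m 0)) :
    ∃ R : ℕ, ∀ k δ D s : ℕ, ∃ E : ℕ, ∀ H t : ℕ, (H + 2) ^ E ≤ t → ∀ W : Set ℕ, SepW R H W →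
      (∀ g ∈ W, StrictMono (er a m (1 / ((t : ℝ) - g)))) ∧ ∀ x : Fin s → ℂ,
      ∃ S : Finset ℕ, S.card ≤ s ∧ ∀ g : Fin k → ℕ, Function.Injective g → (∀ l, g l ∈ W ∧ g l ∉ S) →
        ∀ (K : IntermediateField ℚ ℂ) [FiniteDimensional ℚ K], Module.finrank ℚ K ≤ D →
        (∀ i j, AlgOver δ K x (CM a m 0 i j)) →
        ∀ A B : Fin k → Matrix (Fin n) (Fin n) ℂ, (∀ l, IsUnit (A l)) → (∀ l, IsUnit (B l)) →
        (∀ l i j, AlgOver δ K x (A l i j)) → (∀ l i j, AlgOver δ K x (B l i j)) →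
        ∃ σ : Fin (k * (n * (n + 1) / 2)) → Fin k × Fin n × Fin n, Function.Injective σ ∧
          IndOver δ K x fun i => (A (σ i).1 * CM a m (1 / ((t : ℝ) - g (σ i).1)) * B (σ i).1) (σ i).2.1 (σ i).2.2 := by
  classical
  have ha : StrictMono a := (inGap_of_er h0).1
  have hg0 : InGap a m 0 := (inGap_of_er h0).2
  have hf0 : f.coeff 0 ≠ 0 := coeff_ne_of_gap hg0 hf
  obtain ⟨G0, hG0, hsep⟩ := exists_G0 a
  refine ⟨G0, fun k δ D s => ?_⟩
  rcases Nat.eq_zero_or_pos n with hn0 | hn0'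
  · subst hn0
    have hss : Subsingleton (Fin (0 + 1)) := inferInstanceAs (Subsingleton (Fin 1))
    refine ⟨0, fun H t _ W _ => ⟨fun g _ => Subsingleton.strictMono _, fun x => ⟨∅, by simp, fun g _ _ K _ _ _ A B _ _ _ _ =>
      ⟨fun i => absurd i.2 (by simp), fun i => absurd i.2 (by simp), fun Q _ hQ0 y => ?_⟩⟩⟩⟩
    rw [← hQ0]
    congr 1
    congr 1
    funext i
    rcases i with i | i
    · rfl
    · exact absurd i.2 (by simp)
  have hn0 : n ≠ 0 := hn0'.ne'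
  have Δ : ZDat n a m f := Classical.choice (exists_ZDat hn ha hg0 hf hf0)
  have hSep : ∀ {k : ℕ} {g : Fin k → ℕ}, ((∀ l, G0 ≤ g l) ∧ ∀ l l', l ≠ l' → g l + G0 ≤ g l' ∨ g l' + G0 ≤ g l) →
      SepN G0 g := by
    intro k g hg l l' hl
    rcases hg.2 l l' hl with h | h
    · rw [abs_of_nonpos (by omega)]
      omega
    · rw [abs_of_nonneg (by omega)]
      omega
  obtain ⟨xv, hxv⟩ : ∃ xv : ℕ → ℕ → Sy n → ℂ, xv = fun (t g : ℕ) p => co (Zc Δ.Z (1 / ((t : ℝ) - g))) p := ⟨_, rfl⟩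
  have hb : Base G0 xv := by
    intro N k
    obtain ⟨E, hE⟩ := base hn hn0 ha hg0 hf hf0 Δ hsep k N
    refine ⟨E, fun H t ht g hg hgH => ?_⟩
    rw [hxv]
    exact ((hE H t ht).2 g (hSep hg) hgH).2
  obtain ⟨E₁, hE₁⟩ := base hn hn0 ha hg0 hf hf0 Δ hsep 1 0
  have hone : ∀ {H t g : ℕ}, (H + 2) ^ E₁ ≤ t → G0 ≤ g → g ≤ H → InGap a m (1 / ((t : ℝ) - g)) ∧
        CM a m (1 / ((t : ℝ) - g)) = AC a m Δ.V * Zc Δ.Z (1 / ((t : ℝ) - g)) *
          Δ.U.map (aeval (((1 / ((t : ℝ) - g) : ℝ)) : ℂ)) ∧ cd (Zc Δ.Z (1 / ((t : ℝ) - g))) ≠ 0 := by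
    intro H t g ht hg hgH
    exact ((hE₁ H t ht).2 (fun _ => g) (fun l l' hl => absurd (Subsingleton.elim l l') hl) fun _ => hgH).1 0
  have hdet : (AC a m Δ.V).det ≠ 0 := by
    intro h3
    have h4 := congrArg Matrix.det (AC_J hn ha hg0 hf Δ.VJ)
    rw [Matrix.det_mul, Matrix.det_mul, h3, zero_mul, zero_mul, Matrix.det_smul] at h4
    have h5 : (-4 * Real.pi * Complex.I : ℂ) ≠ 0 := by
      have h6 : (Real.pi : ℂ) ≠ 0 := by exact_mod_cast Real.pi_ne_zero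
      exact mul_ne_zero (mul_ne_zero (by norm_num) h6) Complex.I_ne_zero
    exact mul_ne_zero (pow_ne_zero _ h5) (jm_det (K := ℂ) hn) h4.symm
  have hAC : IsUnit (AC a m Δ.V) := (Matrix.isUnit_iff_isUnit_det _).2 (isUnit_iff_ne_zero.2 hdet)
  have hUu : ∀ z : ℂ, IsUnit (Δ.U.map (aeval z)) := fun z =>
    IsUnit.of_mul_eq_one (Δ.V.map (aeval z)) (by rw [← map_aevalC_mul, Δ.UV, map_aevalC_one])
  have hcastC : ∀ t g : ℕ, (((1 / ((t : ℝ) - g) : ℝ)) : ℂ) = (((1 / ((t : ℚ) - g) : ℚ)) : ℂ) := fun t g => by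
    push_cast
    rfl
  obtain ⟨E, hE⟩ := gen_rel hb (e := 0) (fun _ j => j.elim0) (k := k) (s := s) (δ := δ) (D := D)
    (ι := Fin k × Fin n × Fin n) (Dat := PD n k) (fun _ x _ dat => dat.ok (CM a m 0) δ D x) (fun dat => dat.K)
    (fun _ _ _ _ h => h.1) (fun t g dat y => (dat.A y.1 * CM a m (1 / ((t : ℝ) - g y.1)) * dat.B y.1) y.2.1 y.2.2) (by
    intro S x g dat hgW hok X hx _ hz l p
    have hEi : ∀ᶠ i in (S.U : Filter ℕ), E₁ ≤ i := S.hU (eventually_ge_atTop E₁)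
    have hval : ∀ᶠ i in (S.U : Filter ℕ), CM a m (1 / ((S.t i : ℝ) - g i l)) = AC a m Δ.V *
        Zc Δ.Z (1 / ((S.t i : ℝ) - g i l)) * Δ.U.map (aeval (((1 / ((S.t i : ℝ) - g i l) : ℝ)) : ℂ)) ∧
        cd (Zc Δ.Z (1 / ((S.t i : ℝ) - g i l))) ≠ 0 := by
      filter_upwards [hEi] with i hi
      have h1 := (S.hW i).1 _ (hgW i l)
      exact (hone ((Nat.pow_le_pow_right (by omega) hi).trans (S.hHt i)) h1.1 h1.2).2
    have halg : ∀ c : ℕ → ℂ, (∀ i, AlgOver δ (dat i).K (x i) (c i)) → (c : Kg S.U) ∈ clF X := fun c hc =>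
      algOver_mem x (fun i => (dat i).K) (fun i => (hok i).1.1) (fun i => (hok i).1.2) c hc X hx
    -- the entries of `Z`
    have hZ : ∀ i' j', gm S.U (fun i => Zc Δ.Z (1 / ((S.t i : ℝ) - g i l))) i' j' ∈ clF X := by
      refine mem_mid (clF X) (A := gm S.U fun i => (dat i).A l) (E := gm S.U fun _ => AC a m Δ.V)
        (B := gm S.U fun i => Δ.U.map (aeval (((1 / ((S.t i : ℝ) - g i l) : ℝ)) : ℂ)) * (dat i).B l)
        (fun a' b' => halg _ fun i => (hok i).2.2.2.1 l a' b') (fun a' b' => ?_) (fun a' b' => ?_)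
        (fun a' b' => ?_) (gm_unit fun i => (hok i).2.1 l) (gm_unit fun _ => hAC)
        (gm_unit fun i => (hUu _).mul ((hok i).2.2.1 l))
      · have h1 : gm S.U (fun _ => AC a m Δ.V) = gm S.U (fun _ => CM a m 0) *
            gm S.U (fun _ => Δ.V.map (aeval (0 : ℂ))) := by
          rw [← gm_mul]
          rfl
        rw [h1]
        refine mulm _ (fun a' b' => halg _ fun i => (hok i).2.2.2.2.2 a' b') (fun a' b' => ?_) a' b'
        rw [map_q Δ.V (x := 0) 0 (by simp)]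
        exact const_cl X _
      · rw [gm_mul]
        refine mulm _ (fun a' b' => ?_) (fun a' b' => halg _ fun i => (hok i).2.2.2.2.1 l a' b') a' b'
        have h1 : gm S.U (fun i => Δ.U.map (aeval (((1 / ((S.t i : ℝ) - g i l) : ℝ)) : ℂ))) =
            gm S.U (fun i => (Δ.U.map (Polynomial.eval (1 / ((S.t i : ℚ) - g i l)))).map (algebraMap ℚ ℂ)) := by
          refine congrArg _ (funext fun i => ?_)
          exact map_q Δ.U _ (hcastC _ _)
        rw [h1]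
        exact rat_cl X fun i => (Δ.U.map (Polynomial.eval (1 / ((S.t i : ℚ) - g i l)))) a' b'
      · have h1 : gm S.U (fun i => (dat i).A l) * gm S.U (fun _ => AC a m Δ.V) *
            gm S.U (fun i => Zc Δ.Z (1 / ((S.t i : ℝ) - g i l))) *
            gm S.U (fun i => Δ.U.map (aeval (((1 / ((S.t i : ℝ) - g i l) : ℝ)) : ℂ)) * (dat i).B l) =
            gm S.U (fun i => (dat i).A l * CM a m (1 / ((S.t i : ℝ) - g i l)) * (dat i).B l) := by
          rw [← gm_mul, ← gm_mul, ← gm_mul]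
          refine gm_congr ?_
          filter_upwards [hval] with i hi
          rw [hi.1]
          simp only [Matrix.mul_assoc]
        rw [h1]
        exact hz (l, a', b')
    -- the Cayley transform
    have h1 : gm S.U (fun i => Zc Δ.Z (1 / ((S.t i : ℝ) - g i l)) + 1) *
        gm S.U (fun i => (Zc Δ.Z (1 / ((S.t i : ℝ) - g i l)) + 1)⁻¹) = 1 := by
      rw [← gm_mul, ← gm_one]
      refine gm_congr ?_
      filter_upwards [hval] with i hi
      exact Matrix.mul_nonsing_inv _ (isUnit_iff_ne_zero.2 hi.2)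
    have h2 : ∀ (ε : ℚ) i' j', gm S.U (fun i => Zc Δ.Z (1 / ((S.t i : ℝ) - g i l)) +
        (Matrix.of fun i' j' => if i' = j' then (ε : ℂ) else 0)) i' j' ∈ clF X := by
      intro ε i' j'
      have h3 : gm S.U (fun i => Zc Δ.Z (1 / ((S.t i : ℝ) - g i l)) +
          (Matrix.of fun i' j' => if i' = j' then (ε : ℂ) else 0)) i' j' =
          gm S.U (fun i => Zc Δ.Z (1 / ((S.t i : ℝ) - g i l))) i' j' +
            ((fun _ => (((if i' = j' then ε else 0 : ℚ)) : ℂ) : ℕ → ℂ) : Kg S.U) := by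
        have h4 : (((if i' = j' then ε else 0 : ℚ)) : ℂ) = if i' = j' then (ε : ℂ) else 0 := by
          split_ifs
          · rfl
          · exact Rat.cast_zero
        rw [h4]
        rfl
      rw [h3]
      exact (clF X).add_mem (hZ i' j') (const_cl X _)
    have e1 : (1 : Matrix (Fin n) (Fin n) ℂ) = Matrix.of fun i' j' => if i' = j' then ((1 : ℚ) : ℂ) else 0 := by
      ext i' j'
      rw [Matrix.one_apply, Matrix.of_apply, Rat.cast_one]
    have e2 : (-1 : Matrix (Fin n) (Fin n) ℂ) = Matrix.of fun i' j' => if i' = j' then ((-1 : ℚ) : ℂ) else 0 := by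
      ext i' j'
      rw [Matrix.neg_apply, Matrix.one_apply, Matrix.of_apply]
      split_ifs <;> simp
    have h3 : ∀ i' j', gm S.U (fun i => Zc Δ.Z (1 / ((S.t i : ℝ) - g i l)) + 1) i' j' ∈ clF X := by
      rw [e1]
      exact h2 1
    have h4 : ∀ i' j', gm S.U (fun i => Zc Δ.Z (1 / ((S.t i : ℝ) - g i l)) - 1) i' j' ∈ clF X := by
      simp only [sub_eq_add_neg]
      rw [e2]
      exact h2 (-1)
    have h5 : gm S.U (fun i => (Zc Δ.Z (1 / ((S.t i : ℝ) - g i l)) + 1)⁻¹) =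
        (gm S.U (fun i => Zc Δ.Z (1 / ((S.t i : ℝ) - g i l)) + 1))⁻¹ := (Matrix.inv_eq_right_inv h1).symm
    have h6 : blk S xv (fun i => g i l) p = gm S.U (fun i => (Zc Δ.Z (1 / ((S.t i : ℝ) - g i l)) - 1) *
        (Zc Δ.Z (1 / ((S.t i : ℝ) - g i l)) + 1)⁻¹ * jm ℂ n) p.1.1 p.1.2 := by
      rw [hxv]
      rfl
    rw [h6, gm_mul, gm_mul, h5]
    refine mulm _ (mulm _ h4 (invm _ h3)) (fun i' j' => ?_) _ _
    have h7 : gm S.U (fun _ => jm ℂ n) i' j' = ((fun _ => ((jm ℚ n i' j' : ℚ) : ℂ) : ℕ → ℂ) : Kg S.U) := by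
      rw [← jm_map (algebraMap ℚ ℂ)]
      rfl
    rw [h7]
    exact const_cl X _)
  have hcardS : Fintype.card (Sy n) = n * (n + 1) / 2 := by
    have := card_Sy n
    omega
  refine ⟨E + E₁, fun H t ht W hW => ⟨fun g hg => ?_, fun x => ?_⟩⟩
  · have h1 := hW.1 g hg
    exact er_of_inGap ha (hone ((Nat.pow_le_pow_right (by omega) (by omega)).trans ht) h1.1 h1.2).1
  obtain ⟨S, hS, h1⟩ := hE H t ((Nat.pow_le_pow_right (by omega) (by omega)).trans ht) W hW x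
  refine ⟨S, hS, fun g hg hgW K hK hKD hC A B uA uB aA aB => ?_⟩
  obtain ⟨σ, hσ, hI⟩ := h1 g hg hgW ⟨K, A, B⟩ ⟨⟨hK, hKD⟩, uA, uB, aA, aB, hC⟩
  have hcard : k * (n * (n + 1) / 2) = k * Fintype.card (Sy n) := by rw [hcardS]
  refine ⟨fun i => σ (Fin.cast hcard i), fun i j hij => Fin.cast_injective hcard (hσ hij), fun Q hQ hQ0 y => ?_⟩
  have h2 := hI (MvPolynomial.rename (Sum.map id (Fin.cast hcard)) Q)
    ((MvPolynomial.totalDegree_rename_le _ _).trans hQ) (by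
    rw [MvPolynomial.aeval_rename, ← hQ0]
    congr 1
    congr 1
    funext i
    rcases i with i | i <;> rfl) (fun j => y (Fin.cast hcard.symm j))
  rw [MvPolynomial.aeval_rename] at h2
  rw [← h2]
  congr 1
  congr 1
  funext i
  rcases i with i | i <;> rfl

end Pool.Agent.L0h64.RP.Hel
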