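import Pool.Agent.L0h64.RP.Shf
import Pool.Agent.Y119.ML.Hyp

/-!
# Hyperlogarithms: the shuffle relations and the linear independence of the values (helper64)
-/

set_option autoImplicit false

open PowerSeries

namespace Pool.Agent.L0h64.RP.Hy

open Pool.Agent.Y119.ML Pool.Agent.Y113

attribute [-instance] HahnSeries.powerSeriesAlgebra

variable {r : ℕ} (α : Fin r → ℤ)

lemma theta_inj {f g : ℚ⟦X⟧} (h : X * d⁄dX ℚ f = X * d⁄dX ℚ g) (h0 : constantCoeff f = constantCoeff g) : f = g :=
  PowerSeries.derivative.ext (mul_left_cancel₀ X_ne_zero h) h0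

lemma shf_len {β : Type} (u v : List β) : ∀ w ∈ shf u v, w.length = u.length + v.length := by
  induction u, v using shf.induct with
  | case1 v =>
    intro w hw
    rw [shf, List.mem_singleton] at hw
    rw [hw, List.length_nil, zero_add]
  | case2 a u =>
    intro w hw
    rw [shf, List.mem_singleton] at hw
    rw [hw, List.length_nil, add_zero]
  | case3 a u b v ih1 ih2 =>
    intro w hw
    rw [shf, List.mem_append, List.mem_map, List.mem_map] at hw
    rcases hw with ⟨w', hw', rfl⟩ | ⟨w', hw', rfl⟩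
    · rw [List.length_cons, ih1 w' hw', List.length_cons, List.length_cons]
      omega
    · rw [List.length_cons, ih2 w' hw', List.length_cons, List.length_cons]
      omega

lemma adm_cons {o : Option (Fin r)} {w : List (Option (Fin r))} (hw : w ≠ []) (h : adm w) : adm (o :: w) := by
  unfold adm at *
  rcases w with _ | ⟨o', w⟩
  · exact absurd rfl hw
  · simpa using h

lemma shf_adm (u v : List (Option (Fin r))) : adm u → adm v → ∀ w ∈ shf u v, adm w := by
  induction u, v using shf.induct with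
  | case1 v =>
    intro hu hv w hw
    rw [shf, List.mem_singleton] at hw
    rw [hw]
    exact hv
  | case2 a u =>
    intro hu hv w hw
    rw [shf, List.mem_singleton] at hw
    rw [hw]
    exact hu
  | case3 a u b v ih1 ih2 =>
    intro hu hv w hw
    rw [shf, List.mem_append, List.mem_map, List.mem_map] at hw
    rcases hw with ⟨w', hw', rfl⟩ | ⟨w', hw', rfl⟩
    · refine adm_cons ?_ (ih1 (adm_tail hu) hv w' hw')
      have h1 := shf_len _ _ w' hw'
      rw [List.length_cons] at h1
      rintro rfl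
      rw [List.length_nil] at h1
      omega
    · refine adm_cons ?_ (ih2 hu (adm_tail hv) w' hw')
      have h1 := shf_len _ _ w' hw'
      rw [List.length_cons] at h1
      rintro rfl
      rw [List.length_nil] at h1
      omega

/-- the shuffle formula for power series -/
theorem LL_shf (g : ℕ) (u v : List (Option (Fin r))) :
    adm u → adm v → LL α g u * LL α g v = ((shf u v).map (LL α g)).sum := by
  induction u, v using shf.induct with
  | case1 v =>
    intro _ _
    rw [shf]
    simp [LL]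
  | case2 a u =>
    intro _ _
    rw [shf]
    simp [LL]
  | case3 a u b v ih1 ih2 =>
    intro hu hv
    have i1 := ih1 (adm_tail hu) hv
    have i2 := ih2 hu (adm_tail hv)
    have hth : ∀ (o : Option (Fin r)) (T : List (List (Option (Fin r)))), (∀ w ∈ T, adm (o :: w)) →
        X * d⁄dX ℚ ((T.map (o :: ·)).map (LL α g)).sum = UU α g o * (T.map (LL α g)).sum ∧
        constantCoeff ((T.map (o :: ·)).map (LL α g)).sum = 0 := by
      intro o T
      induction T with
      | nil =>
        intro _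
        simp
      | cons w T ihT =>
        intro hT
        obtain ⟨j1, j2⟩ := ihT fun w hw => hT w (List.mem_cons_of_mem _ hw)
        have j3 := theta_LL α g (hT w List.mem_cons_self)
        have j4 := const_LL α g (w := o :: w) (by simp)
        refine ⟨?_, ?_⟩
        · rw [List.map_cons, List.map_cons, List.sum_cons, map_add, mul_add, j1, j3, List.map_cons, List.sum_cons,
            mul_add]
        · rw [List.map_cons, List.map_cons, List.sum_cons, map_add, j2, j4, add_zero]
    have hne : ∀ (x y : List (Option (Fin r))) (w : List (Option (Fin r))), w ∈ shf x y → 0 < x.length + y.length →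
        w ≠ [] := by
      intro x y w hw hpos
      have h1 := shf_len _ _ w hw
      rintro rfl
      rw [List.length_nil] at h1
      omega
    obtain ⟨a1, a2⟩ := hth a (shf u (b :: v)) fun w hw => adm_cons
      (hne _ _ w hw (by rw [List.length_cons]; omega)) (shf_adm _ _ (adm_tail hu) hv w hw)
    obtain ⟨b1, b2⟩ := hth b (shf (a :: u) v) fun w hw => adm_cons
      (hne _ _ w hw (by rw [List.length_cons]; omega)) (shf_adm _ _ hu (adm_tail hv) w hw)
    have hs : ((shf (a :: u) (b :: v)).map (LL α g)).sum =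
        (((shf u (b :: v)).map (a :: ·)).map (LL α g)).sum + (((shf (a :: u) v).map (b :: ·)).map (LL α g)).sum := by
      rw [shf, List.map_append, List.sum_append]
    rw [hs]
    refine theta_inj ?_ ?_
    · rw [map_add, mul_add, a1, b1, ← i1, ← i2, Derivation.leibniz, smul_eq_mul, smul_eq_mul]
      have c1 := theta_LL α g hu
      have c2 := theta_LL α g hv
      linear_combination (LL α g (b :: v)) * c1 + (LL α g (a :: u)) * c2
    · rw [map_add, a2, b2, map_mul, const_LL α g (w := a :: u) (by simp)]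
      simp

/-- the product formula for power series -/
theorem LL_prod (g : ℕ) (M : List (List (Option (Fin r)))) (hM : ∀ u ∈ M, adm u) :
    (∀ w ∈ shl M, adm w) ∧ (M.map (LL α g)).prod = ((shl M).map (LL α g)).sum :=
  prod_shl adm (LL α g) rfl (by simp [adm]) (fun u v w hu hv hw => shf_adm u v hu hv w hw) (fun u v hu hv => LL_shf α g u v hu hv)
    M hM

/-- the values of the products of the functions are linearly independent -/
theorem vals {σ : Type} [Fintype σ] {F : ℕ → σ → ℚ⟦X⟧} {Tg : ℕ → Polynomial ℤ} {q₀ E₀ A : ℕ} {b₀ : σ}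
    {P : ∀ k, (Fin k → ℕ) → Prop} (hF : FamP F Tg q₀ E₀ A b₀ P) (D : ℕ) : ∃ E : ℕ, ∀ (H t : ℕ), (H + 2) ^ E ≤ t →
    ∀ g : Fin D → ℕ, P D g → (∀ l, g l ≤ H) →
      LinearIndependent ℚ (fun b : Fin D → σ => ∏ l, ev (t : ℝ) (F (g l) (b l))) := by
  classical
  obtain ⟨q, E₁, hE₁⟩ := Pool.Agent.Y120.GF.gsys_multi F Tg q₀ E₀ hF.sys D
  obtain ⟨E₂, hE₂⟩ := Pool.Agent.Y120.GF.t_G (Fintype.card (Fin D → σ)) q
  refine ⟨(max E₁ 1 + 1) * max E₂ 1 + (E₀ + 2) + (A + 1), ?_⟩
  intro H t hHt g hg hgH
  have hH2 : (2 : ℝ) ≤ (H : ℝ) + 2 := by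
    have : (0 : ℝ) ≤ H := by positivity
    linarith
  have hH1 : (1 : ℝ) ≤ (H : ℝ) + 2 := by linarith
  have htR : (((H : ℝ) + 2)) ^ ((max E₁ 1 + 1) * max E₂ 1 + (E₀ + 2) + (A + 1)) ≤ (t : ℝ) := by exact_mod_cast hHt
  have hb1 : ((H : ℝ) + 2) ^ ((max E₁ 1 + 1) * max E₂ 1) ≤ (t : ℝ) :=
    (pow_le_pow_right₀ hH1 (by omega)).trans htR
  have hb2 : ((H : ℝ) + 2) ^ (E₀ + 2) ≤ (t : ℝ) := (pow_le_pow_right₀ hH1 (by omega)).trans htR
  have hHt' : H + A < t :=
    (add_lt_pow H A).trans_le ((Nat.pow_le_pow_right (by omega) (by omega)).trans hHt)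
  have ht0 : (0 : ℝ) < t := by
    have : 0 < t := by omega
    exact_mod_cast this
  have hsys := (hE₁ H g hgH).mono le_rfl (pow_le_pow_right₀ hH1 (le_max_left E₁ 1))
  have hC : (2 * ((H : ℝ) + 2) ^ (max E₁ 1)) ^ E₂ ≤ (t : ℝ) := by
    have h1 : (2 * ((H : ℝ) + 2) ^ (max E₁ 1)) ^ E₂ ≤ (2 * ((H : ℝ) + 2) ^ (max E₁ 1)) ^ (max E₂ 1) := by
      refine pow_le_pow_right₀ ?_ (le_max_left _ _)
      have : (1 : ℝ) ≤ ((H : ℝ) + 2) ^ (max E₁ 1) := one_le_pow₀ hH1
      linarith
    exact h1.trans ((pow_base H _ _).trans hb1)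
  have hne : Polynomial.aeval (1 / (t : ℝ)) (∏ l, Tg (g l)) ≠ 0 := by
    rw [map_prod, Finset.prod_ne_zero_iff]
    intro l _
    refine hF.ne _ _ ?_
    have := hgH l
    omega
  have hLI := hE₂ (Fin D → σ) (((H : ℝ) + 2) ^ (max E₁ 1)) (∏ l, Tg (g l)) (fun b => ∏ l, F (g l) (b l)) (fun _ => b₀) t
    le_rfl hsys (by
      beta_reduce
      exact Finset.prod_eq_one fun l _ => hF.one _) (hF.li D g hg) hC hne
  have hcv : ∀ l b, Cv (t : ℝ) (F (g l) b) := by
    intro l b
    have h1 := (hF.sys (g l)).size b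
    set B : ℝ := ((g l : ℝ) + 2) ^ E₀ with hB
    have hB0 : 0 ≤ B := by positivity
    refine Cv.of_bound (A := B) (B := B) ht0 hB0 ?_ fun m => ?_
    · have h2 : B ≤ ((H : ℝ) + 2) ^ E₀ := by
        refine pow_le_pow_left₀ (by positivity) ?_ _
        have : ((g l : ℕ) : ℝ) ≤ H := by exact_mod_cast hgH l
        linarith
      have h3 : ((H : ℝ) + 2) ^ E₀ < ((H : ℝ) + 2) ^ (E₀ + 2) := pow_lt_pow_right₀ (by linarith) (by omega)
      linarith
    · exact (h1 m).trans (le_of_eq (pow_succ' _ _))
  have hev : ∀ b : Fin D → σ, ev (t : ℝ) (∏ l, F (g l) (b l)) = ∏ l, ev (t : ℝ) (F (g l) (b l)) := by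
    intro b
    exact Cv.ev_prod ht0 Finset.univ (fun l => F (g l) (b l)) fun l _ => hcv l _
  simp only [hev] at hLI
  exact hLI

end Pool.Agent.L0h64.RP.Hy
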