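import Pool.Agent.L0h64.RP.HyA
import Pool.Agent.L0h64.RP.Gen

/-!
# Hyperlogarithms: the monomials in the values at Lyndon words (helper64)
-/

set_option autoImplicit false

open PowerSeries

namespace Pool.Agent.L0h64.RP.Hy

open Pool.Agent.Y119.ML Pool.Agent.Y113 Pool.Agent.L0h64.ZV.Lyn

attribute [-instance] HahnSeries.powerSeriesAlgebra

variable {r : ℕ}

/-- the rank of a letter -/
def rk : Option (Fin r) → ℕ
  | none => 0
  | some a => (a : ℕ) + 1

lemma rk_inj : Function.Injective (rk : Option (Fin r) → ℕ) := by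
  rintro (_ | a) (_ | b) h
  · rfl
  · simp [rk] at h
  · simp [rk] at h
  · simp only [rk, Nat.add_right_cancel_iff] at h
    rw [Fin.ext h]

/-- Lyndon words different from the word `none` -/
def IsL (w : List (Option (Fin r))) : Prop := Ly rk w ∧ w ≠ [none]

lemma IsL.adm {w : List (Option (Fin r))} (h : IsL w) : adm w := by
  intro hl
  obtain ⟨⟨h1, h2⟩, h3⟩ := h
  rw [List.getLast?_eq_some_iff] at hl
  obtain ⟨u, rfl⟩ := hl
  rcases u with _ | ⟨o, u⟩
  · exact h3 rfl
  · have h4 := h2 ((o :: u).map rk) [rk (none : Option (Fin r))] (by simp) (by simp) (by simp)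
    rw [List.cons_append, List.map_cons, List.cons_lt_cons_iff] at h4
    rcases h4 with h4 | ⟨-, h4⟩
    · simp [rk] at h4
    · exact absurd h4 (List.not_lt_nil _)

/-- Lyndon words of length at most `W`, different from `none` -/
def LW (r W : ℕ) : Type := {w : List (Option (Fin r)) // IsL w ∧ w.length ≤ W}

noncomputable instance (r W : ℕ) : Fintype (LW r W) := by
  classical
  exact Fintype.subtype ((wds r W).filter fun w => IsL w) (fun w => by simp [mem_wds, and_comm])

noncomputable instance (r W : ℕ) : DecidableEq (LW r W) := Classical.decEq _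

/-- monomials with exponents at most `N` -/
abbrev Mo (r W N : ℕ) : Type := LW r W → Fin (N + 1)

/-- the multiset of words of a monomial -/
noncomputable def ms {W N : ℕ} (s : Mo r W N) : Multiset (List (Option (Fin r))) :=
  wm (fun i : LW r W => i.1) fun i => (s i : ℕ)

/-- the sorted list of words of a monomial -/
noncomputable def ml {W N : ℕ} (s : Mo r W N) : List (List (Option (Fin r))) := Classical.choose (exists_srt rk (ms s))

lemma ml1 {W N : ℕ} (s : Mo r W N) : ((ml s : List (List (Option (Fin r)))) : Multiset (List (Option (Fin r)))) = ms s :=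
  (Classical.choose_spec (exists_srt rk (ms s))).1

lemma ml2 {W N : ℕ} (s : Mo r W N) : Srt rk (ml s) := (Classical.choose_spec (exists_srt rk (ms s))).2

lemma ml_inj {W N : ℕ} {s s' : Mo r W N} (h : ml s = ml s') : s = s' := by
  have h1 : ms s = ms s' := by rw [← ml1, ← ml1, h]
  have h2 := wm_inj (s := fun i : LW r W => i.1) Subtype.val_injective h1
  funext i
  exact Fin.ext (congrFun h2 i)

lemma mem_ml {W N : ℕ} (s : Mo r W N) : ∀ u ∈ ml s, IsL u ∧ u.length ≤ W := by
  intro u hu
  have h1 : u ∈ ms s := by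
    rw [← ml1]
    exact Multiset.mem_coe.2 hu
  obtain ⟨i, rfl⟩ := mem_wm h1
  exact i.2

/-- a bound for the length -/
noncomputable def bd (r W N : ℕ) : ℕ := Fintype.card (LW r W) * (N * W) + N

lemma shl_le {W N : ℕ} (s : Mo r W N) : ∀ w ∈ shl (ml s), w.length ≤ bd r W N := by
  intro w hw
  rw [shl_length hw, ml1, ms, wm_tot]
  have h1 : ∑ i : LW r W, (s i : ℕ) * (i.1).length ≤ ∑ _i : LW r W, N * W :=
    Finset.sum_le_sum fun i _ => Nat.mul_le_mul (Nat.lt_succ_iff.1 (s i).2) i.2.2
  rw [Finset.sum_const, Finset.card_univ, smul_eq_mul] at h1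
  unfold bd
  omega

lemma shl_adm {W N : ℕ} (s : Mo r W N) : ∀ w ∈ shl (ml s), adm w :=
  (LL_prod (fun _ => 0) 0 (ml s) fun u hu => (mem_ml s u hu).1.adm).1

/-- the coefficients -/
noncomputable def cf {W N : ℕ} (s : Mo r W N) (w : WI r (bd r W N)) : ℚ := ((shl (ml s)).count w.1 : ℕ)

/-- a list of admissible words as a sum over words -/
lemma sum_words {A : Type} [CommRing A] [Algebra ℚ A] {B : ℕ} (φ : List (Option (Fin r)) → A)
    (T : List (List (Option (Fin r)))) (hT : ∀ w ∈ T, w.length ≤ B ∧ adm w) :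
    (T.map φ).sum = ∑ w : WI r B, algebraMap ℚ A ((T.count w.1 : ℕ) : ℚ) * φ w.1 := by
  classical
  induction T with
  | nil => simp
  | cons u T ih =>
    rw [List.map_cons, List.sum_cons, ih fun w hw => hT w (List.mem_cons_of_mem _ hw)]
    have hu := hT u List.mem_cons_self
    have h1 : ∀ w : WI r B, algebraMap ℚ A (((u :: T).count w.1 : ℕ) : ℚ) * φ w.1 =
        (if w = ⟨u, hu⟩ then φ w.1 else 0) + algebraMap ℚ A ((T.count w.1 : ℕ) : ℚ) * φ w.1 := by
      intro w
      rw [List.count_cons]
      by_cases hw : w = ⟨u, hu⟩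
      · subst hw
        rw [if_pos rfl, if_pos (by simp)]
        push_cast
        ring
      · rw [if_neg hw, if_neg, zero_add]
        · push_cast
          simp
        · intro h
          apply hw
          exact Subtype.ext (beq_iff_eq.1 h).symm
    simp only [h1]
    rw [Finset.sum_add_distrib, Finset.sum_ite_eq' Finset.univ (⟨u, hu⟩ : WI r B), if_pos (Finset.mem_univ _)]

/-- the coefficient vectors of the monomials are linearly independent -/
theorem cf_ind {W N : ℕ} (q : Mo r W N → ℚ) (hq : ∀ w, ∑ s, q s * cf s w = 0) : ∀ s, q s = 0 := by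
  classical
  by_contra hcon
  push Not at hcon
  obtain ⟨s₀, hs₀⟩ := hcon
  obtain ⟨s, hs, hmax⟩ := (Finset.univ.filter fun s : Mo r W N => q s ≠ 0).exists_max_image
    (fun s => (ml s).flatten.map rk) ⟨s₀, by simp [hs₀]⟩
  rw [Finset.mem_filter] at hs
  have hfl := flatten_mem_shl (ml s)
  have hw : (ml s).flatten.length ≤ bd r W N ∧ (ml s).flatten.getLast? ≠ some none :=
    ⟨shl_le s _ hfl, shl_adm s _ hfl⟩
  have h1 := hq ⟨(ml s).flatten, hw⟩
  rw [Finset.sum_eq_single s] at h1
  · rcases mul_eq_zero.1 h1 with h2 | h2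
    · exact hs.2 h2
    · rw [cf, Nat.cast_eq_zero, List.count_eq_zero] at h2
      exact h2 hfl
  · intro s' _ hne
    by_cases hs' : q s' = 0
    · rw [hs', zero_mul]
    · have h2 := hmax s' (by simp [hs'])
      rw [cf]
      by_cases h3 : (ml s).flatten ∈ shl (ml s')
      · exfalso
        apply hne
        exact ml_inj (leadS rk rk_inj (ml2 s) (ml2 s') (fun u hu => (mem_ml s u hu).1.1)
          (fun u hu => (mem_ml s' u hu).1.1) h2 h3)
      · rw [List.count_eq_zero_of_not_mem h3, Nat.cast_zero, mul_zero]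
  · intro h
    exact absurd (Finset.mem_univ _) h

/-- a left inverse -/
lemma left_inv {I J : Type} [Fintype I] [Fintype J] [DecidableEq I] (c : I → J → ℚ)
    (hc : ∀ q : I → ℚ, (∀ j, ∑ i, q i * c i j = 0) → ∀ i, q i = 0) :
    ∃ d : J → I → ℚ, ∀ i i', ∑ j, c i j * d j i' = if i = i' then 1 else 0 := by
  classical
  have h1 : LinearIndependent ℚ c := by
    rw [Fintype.linearIndependent_iff]
    intro q hq
    refine hc q fun j => ?_
    have h2 := congrFun hq j
    rw [Finset.sum_apply] at h2
    simpa using h2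
  have h2 : LinearMap.ker (Fintype.linearCombination ℚ c) = ⊥ := by
    rw [LinearMap.ker_eq_bot']
    intro q hq
    funext i
    rw [Fintype.linearIndependent_iff] at h1
    exact h1 q hq i
  obtain ⟨f, hf⟩ := LinearMap.exists_leftInverse_of_injective _ h2
  refine ⟨fun j i => f (Pi.single j 1) i, fun i i' => ?_⟩
  have h3 : f (c i) = Pi.single i 1 := by
    have h4 := LinearMap.congr_fun hf (Pi.single i (1 : ℚ))
    rw [LinearMap.comp_apply, LinearMap.id_apply, Fintype.linearCombination_apply_single, one_smul] at h4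
    exact h4
  have h4 : c i = ∑ j, c i j • (Pi.single j (1 : ℚ) : J → ℚ) := by
    funext j
    rw [Finset.sum_apply]
    simp [Pi.single_apply]
  rw [h4, map_sum] at h3
  have h5 := congrFun h3 i'
  rw [Finset.sum_apply] at h5
  simp only [map_smul, Pi.smul_apply, smul_eq_mul] at h5
  rw [h5, Pi.single_apply]
  simp only [eq_comm]

/-- tensor products of independent families -/
theorem tens {k : ℕ} {I J : Type} [Fintype I] [Fintype J] (c : I → J → ℚ)
    (hc : ∀ q : I → ℚ, (∀ j, ∑ i, q i * c i j = 0) → ∀ i, q i = 0) (y : Fin k → J → ℝ)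
    (hy : LinearIndependent ℚ (fun b : Fin k → J => ∏ l, y l (b l))) :
    LinearIndependent ℚ (fun s : Fin k → I => ∏ l, ∑ j, (c (s l) j : ℝ) * y l j) := by
  classical
  obtain ⟨d, hd⟩ := left_inv c hc
  rw [Fintype.linearIndependent_iff] at hy ⊢
  intro q hq s'
  have h1 : ∀ b : Fin k → J, ∑ s : Fin k → I, q s * ∏ l, c (s l) (b l) = 0 := by
    refine hy _ ?_
    rw [← hq]
    have h2 : ∀ s : Fin k → I, (q s) • ∏ l, ∑ j, (c (s l) j : ℝ) * y l j =
        ∑ b : Fin k → J, (q s : ℝ) * ((∏ l, (c (s l) (b l) : ℝ)) * ∏ l, y l (b l)) := by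
      intro s
      rw [Finset.prod_univ_sum, Fintype.piFinset_univ, Rat.smul_def, Finset.mul_sum]
      exact Finset.sum_congr rfl fun b _ => by rw [Finset.prod_mul_distrib]
    simp only [h2]
    rw [Finset.sum_comm]
    refine Finset.sum_congr rfl fun b _ => ?_
    rw [Rat.smul_def]
    push_cast
    rw [Finset.sum_mul]
    exact Finset.sum_congr rfl fun s _ => by ring
  have h2 : ∑ b : Fin k → J, (∑ s : Fin k → I, q s * ∏ l, c (s l) (b l)) * ∏ l, d (b l) (s' l) = q s' := by
    have h3 : ∀ b : Fin k → J, (∑ s : Fin k → I, q s * ∏ l, c (s l) (b l)) * ∏ l, d (b l) (s' l) =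
        ∑ s : Fin k → I, q s * ∏ l, (c (s l) (b l) * d (b l) (s' l)) := by
      intro b
      rw [Finset.sum_mul]
      refine Finset.sum_congr rfl fun s _ => ?_
      rw [Finset.prod_mul_distrib]
      ring
    simp only [h3]
    rw [Finset.sum_comm]
    have h4 : ∀ s : Fin k → I, ∑ b : Fin k → J, q s * ∏ l, (c (s l) (b l) * d (b l) (s' l)) =
        q s * if s = s' then 1 else 0 := by
      intro s
      rw [← Finset.mul_sum]
      congr 1
      have h5 := Finset.prod_univ_sum (fun _ : Fin k => (Finset.univ : Finset J)) fun l j => c (s l) j * d j (s' l)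
      rw [Fintype.piFinset_univ] at h5
      rw [← h5]
      simp only [hd]
      by_cases hs : s = s'
      · subst hs
        simp
      · rw [if_neg hs]
        obtain ⟨l, hl⟩ := Function.ne_iff.1 hs
        exact Finset.prod_eq_zero (Finset.mem_univ l) (if_neg hl)
    simp only [h4]
    simp
  rw [← h2]
  exact Finset.sum_eq_zero fun b _ => by rw [h1 b, zero_mul]

end Pool.Agent.L0h64.RP.Hy
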