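import Pool.Agent.L0h64.RP.HyB
import Pool.Agent.L0h64.RP.Exm

/-!
# Hyperlogarithms: the independence of the values for separated shifts (helper64)
-/

set_option autoImplicit false

open PowerSeries

namespace Pool.Agent.L0h64.RP.Hy

open Pool.Agent.Y119.ML Pool.Agent.Y113 Pool.Agent.L0h64.ZV.Lyn

attribute [-instance] HahnSeries.powerSeriesAlgebra

variable {r : ℕ} (α : Fin r → ℤ)

lemma Cv_LL (w : List (Option (Fin r))) : ∃ E : ℕ, ∀ x : ℝ, 0 < x → x * 2 ^ E < 1 → Cv (1 / x) (LL α 0 w) := by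
  obtain ⟨E, hE⟩ := SDE_LL α w
  refine ⟨E, fun x hx hxE => Cv_of (hE 0) hx ?_⟩
  simpa using hxE

lemma pow_small {x : ℝ} (hx : 0 < x) {a b : ℕ} (hab : a ≤ b) (h : x * 2 ^ b < 1) : x * 2 ^ a < 1 := by
  refine lt_of_le_of_lt ?_ h
  exact mul_le_mul_of_nonneg_left (pow_le_pow_right₀ (by norm_num) hab) hx.le

/-- the product formula for the values -/
theorem HL_prod {W N : ℕ} (s : Mo r W N) : ∃ E : ℕ, ∀ x : ℝ, 0 < x → x * 2 ^ E < 1 →
    ∏ w : LW r W, HL α w.1 x ^ (s w : ℕ) = ∑ w : WI r (bd r W N), (cf s w : ℝ) * HL α w.1 x := by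
  classical
  have hA : ∀ w : List (Option (Fin r)), adm w → ∃ E : ℕ, ∀ x : ℝ, 0 < x → x * 2 ^ E < 1 →
      Cv (1 / x) (LL α 0 w) ∧ HL α w x = ev (1 / x) (LL α 0 w) := by
    intro w hw
    obtain ⟨E₁, hE₁⟩ := Cv_LL α w
    obtain ⟨E₂, hE₂⟩ := HL_eq α w hw
    refine ⟨E₁ + E₂, fun x hx hxE => ⟨hE₁ x hx (pow_small hx (by omega) hxE), ?_⟩⟩
    have h1 := hE₂ 0 x hx.le (by
      have := pow_small hx (show E₂ ≤ E₁ + E₂ by omega) hxE
      simpa using this.le)
    rw [ev_eq, one_div_one_div, ← h1]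
    congr 1
    simp
  have hB : ∀ w : LW r W, ∃ E : ℕ, ∀ x : ℝ, 0 < x → x * 2 ^ E < 1 →
      Cv (1 / x) (LL α 0 w.1) ∧ HL α w.1 x = ev (1 / x) (LL α 0 w.1) := fun w => hA w.1 w.2.1.adm
  have hC : ∀ w : WI r (bd r W N), ∃ E : ℕ, ∀ x : ℝ, 0 < x → x * 2 ^ E < 1 →
      Cv (1 / x) (LL α 0 w.1) ∧ HL α w.1 x = ev (1 / x) (LL α 0 w.1) := fun w => hA w.1 w.2.2
  choose EB hEB using hB
  choose EC hEC using hC
  refine ⟨∑ w, EB w + ∑ w, EC w, fun x hx hxE => ?_⟩
  have kB : ∀ w, Cv (1 / x) (LL α 0 (w : LW r W).1) ∧ HL α w.1 x = ev (1 / x) (LL α 0 w.1) := fun w =>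
    hEB w x hx (pow_small hx ((Finset.single_le_sum (f := EB) (fun _ _ => Nat.zero_le _) (Finset.mem_univ w)).trans
      (Nat.le_add_right _ _)) hxE)
  have kC : ∀ w, Cv (1 / x) (LL α 0 (w : WI r (bd r W N)).1) ∧ HL α w.1 x = ev (1 / x) (LL α 0 w.1) := fun w =>
    hEC w x hx (pow_small hx ((Finset.single_le_sum (f := EC) (fun _ _ => Nat.zero_le _) (Finset.mem_univ w)).trans
      (Nat.le_add_left _ _)) hxE)
  have hx1 : 0 < 1 / x := one_div_pos.2 hx
  have h1 : ∏ w : LW r W, LL α 0 w.1 ^ (s w : ℕ) =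
      ∑ w : WI r (bd r W N), C (cf s w) * LL α 0 w.1 := by
    have e1 := wm_prod (fun i : LW r W => i.1) (fun i => (s i : ℕ)) (LL α 0)
    have e2 : (wm (fun i : LW r W => i.1) fun i => (s i : ℕ)) = ms s := rfl
    rw [e2, ← ml1 s, Multiset.map_coe, Multiset.prod_coe,
      (LL_prod α 0 (ml s) fun u hu => (mem_ml s u hu).1.adm).2,
      sum_words (LL α 0) (shl (ml s)) fun w hw => ⟨shl_le s w hw, shl_adm s w hw⟩] at e1
    rw [← e1]
    rfl
  have h2 := congrArg (ev (1 / x)) h1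
  rw [Cv.ev_prod hx1 Finset.univ (fun w : LW r W => LL α 0 w.1 ^ (s w : ℕ)) fun w _ => Cv.pow hx1 (kB w).1 _,
    Cv.ev_sum hx1 Finset.univ (fun w : WI r (bd r W N) => C (cf s w) * LL α 0 w.1)
      fun w _ => Cv.mul hx1 (Cv.C _) (kC w).1] at h2
  have h3 : ∀ w : LW r W, ev (1 / x) (LL α 0 w.1 ^ (s w : ℕ)) = HL α w.1 x ^ (s w : ℕ) := fun w => by
    rw [Cv.ev_pow hx1 (kB w).1, (kB w).2]
  have h4 : ∀ w : WI r (bd r W N), ev (1 / x) (C (cf s w) * LL α 0 w.1) = (cf s w : ℝ) * HL α w.1 x := fun w => by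
    rw [Cv.ev_mul hx1 (Cv.C _) (kC w).1, ev_C, (kC w).2]
  simp only [h3, h4] at h2
  exact h2

/-- the values -/
noncomputable def xh (α : Fin r → ℤ) (W : ℕ) (t g : ℕ) (o : Option (LW r W)) : ℂ :=
  o.elim ((Real.log (1 - g / t) : ℝ) : ℂ) fun w => ((HL α w.1 (1 / ((t : ℝ) - g)) : ℝ) : ℂ)

/-- the coefficients, with the exponent of the logarithm -/
noncomputable def cg {W N : ℕ} (p : Fin (N + 1) × Mo r W N) (b : JJ r (bd r W N)) : ℚ :=
  if (p.1 : ℕ) = b.1 then cf p.2 b.2 else 0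

lemma N_le (W N : ℕ) : N ≤ bd r W N := by
  unfold bd
  omega

lemma cg_ind {W N : ℕ} (q : Fin (N + 1) × Mo r W N → ℚ) (hq : ∀ b, ∑ p, q p * cg p b = 0) : ∀ p, q p = 0 := by
  classical
  rintro ⟨a, s⟩
  refine cf_ind (fun s => q (a, s)) (fun w => ?_) s
  have h1 := hq (⟨a, by have := N_le (r := r) W N; omega⟩, w)
  rw [Fintype.sum_prod_type] at h1
  rw [Finset.sum_eq_single a] at h1
  · rw [← h1]
    refine Finset.sum_congr rfl fun s _ => ?_
    rw [cg, if_pos rfl]
  · intro a' _ hne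
    refine Finset.sum_eq_zero fun s _ => ?_
    rw [cg, if_neg, mul_zero]
    intro h
    exact hne (Fin.ext h)
  · intro h
    exact absurd (Finset.mem_univ _) h

lemma cg_sum {W N : ℕ} (a : Fin (N + 1)) (s : Mo r W N) (L : ℝ) (h : WI r (bd r W N) → ℝ) :
    ∑ b : JJ r (bd r W N), (cg (a, s) b : ℝ) * (L ^ (b.1 : ℕ) * h b.2) = L ^ (a : ℕ) * ∑ w, (cf s w : ℝ) * h w := by
  classical
  rw [Fintype.sum_prod_type, Finset.sum_eq_single ⟨a, by have := N_le (r := r) W N; omega⟩]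
  · rw [Finset.mul_sum]
    refine Finset.sum_congr rfl fun w _ => ?_
    rw [cg, if_pos rfl]
    ring
  · intro a' _ hne
    refine Finset.sum_eq_zero fun w _ => ?_
    rw [cg, if_neg, Rat.cast_zero, zero_mul]
    intro h
    exact hne (Fin.ext h.symm)
  · intro h
    exact absurd (Finset.mem_univ _) h

/-- linear independence over `ℚ` of real numbers in `ℂ` -/
lemma li_ofReal {ι : Type} [Fintype ι] {x : ι → ℝ} (h : LinearIndependent ℚ x) :
    LinearIndependent ℚ (fun i => ((x i : ℝ) : ℂ)) := by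
  rw [Fintype.linearIndependent_iff] at h ⊢
  intro q hq
  refine h q ?_
  have h1 : (((∑ i, q i • x i : ℝ)) : ℂ) = 0 := by
    rw [← hq]
    rw [Complex.ofReal_sum]
    refine Finset.sum_congr rfl fun i _ => ?_
    rw [Rat.smul_def, Rat.smul_def, Complex.ofReal_mul, Complex.ofReal_ratCast]
  exact_mod_cast h1

/-- **the independence for separated shifts** -/
theorem base_h (hα : Function.Injective α) (h0 : ∀ a, α a ≠ 0) (W : ℕ) : Base (2 * ex α) (xh α W) := by
  classical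
  intro N k
  set B := bd r W N with hB
  obtain ⟨E₀, hF⟩ := fam_ff α h0 B (r := r)
  obtain ⟨E₁, hE₁⟩ := vals hF k
  obtain ⟨E₂, hE₂⟩ := ev_ff α (r := r) B
  choose E₃ hE₃ using fun s : Mo r W N => HL_prod α s
  refine ⟨E₁ + E₂ + ∑ s, E₃ s + 1, fun H t hHt g hg hgH => ?_⟩
  have hex : 1 ≤ ex α := by unfold ex; omega
  have t1 : (H + 2) ^ E₁ ≤ t := (Nat.pow_le_pow_right (by omega) (by omega)).trans hHt
  have t2 : ∀ l, (g l + 2) ^ E₂ ≤ t := fun l =>
    (Nat.pow_le_pow_left (by have := hgH l; omega) _).trans ((Nat.pow_le_pow_right (by omega) (by omega)).trans hHt)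
  have t3 : ∀ l, 2 ^ (∑ s, E₃ s) + g l < t := by
    intro l
    have h1 : (H + 2) ^ (∑ s, E₃ s + 1) ≤ t := (Nat.pow_le_pow_right (by omega) (by omega)).trans hHt
    rw [pow_succ] at h1
    have h2 : 2 ^ (∑ s, E₃ s) ≤ (H + 2) ^ (∑ s, E₃ s) := Nat.pow_le_pow_left (by omega) _
    have h3 : 1 ≤ 2 ^ (∑ s, E₃ s) := Nat.one_le_two_pow
    have h4 := hgH l
    nlinarith
  have hsep : SepA α k g := by
    refine ⟨fun l => by have := hg.1 l; omega, ?_, fun l o h => ?_⟩
    · rintro ⟨l, o⟩ ⟨l', o'⟩ h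
      simp only at h
      have e1 := sft_le α o
      have e2 := sft_le α o'
      have hll : l = l' := by
        by_contra hne
        rcases hg.2 l l' hne with h3 | h3 <;> omega
      subst hll
      have : sft α o = sft α o' := by omega
      rw [sft_inj α hα h0 this]
    · have e1 := sft_le α o
      have e2 := hg.1 l
      omega
  have hLI := hE₁ H t t1 g hsep hgH
  have hT := tens (k := k) (cg (r := r) (W := W) (N := N)) cg_ind (fun l b => ev (t : ℝ) (ff α (g l) b)) hLI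
  have hC := li_ofReal hT
  have hinj : Function.Injective (fun (s : Fin k × Option (LW r W) → Fin (N + 1)) (l : Fin k) =>
      ((s (l, none), fun w => s (l, some w)) : Fin (N + 1) × Mo r W N)) := by
    intro s s' h
    funext ⟨l, o⟩
    have h1 := congrFun h l
    rw [Prod.mk.injEq] at h1
    rcases o with _ | w
    · exact h1.1
    · exact congrFun h1.2 w
  have h1 := hC.comp _ hinj
  have h2 : (fun s : Fin k × Option (LW r W) → Fin (N + 1) => ∏ i, xh α W t (g i.1) i.2 ^ (s i : ℕ)) =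
      (fun s : Fin k → Fin (N + 1) × Mo r W N =>
        ((∏ l, ∑ b, (cg (s l) b : ℝ) * ev (t : ℝ) (ff α (g l) b) : ℝ) : ℂ)) ∘
      (fun (s : Fin k × Option (LW r W) → Fin (N + 1)) (l : Fin k) =>
        ((s (l, none), fun w => s (l, some w)) : Fin (N + 1) × Mo r W N)) := by
    funext s
    rw [Function.comp_apply, Complex.ofReal_prod, Fintype.prod_prod_type]
    refine Finset.prod_congr rfl fun l _ => ?_
    rw [Fintype.prod_option]
    have h3 : ∀ b : JJ r B, ev (t : ℝ) (ff α (g l) b) =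
        Real.log (1 - g l / t) ^ (b.1 : ℕ) * HL α b.2.1 (1 / ((t : ℝ) - g l)) := fun b => hE₂ (g l) t (t2 l) b
    simp only [h3]
    rw [cg_sum (s (l, none)) (fun w => s (l, some w)) (Real.log (1 - g l / t))
      fun w => HL α w.1 (1 / ((t : ℝ) - g l))]
    have h4 : (0 : ℝ) < (t : ℝ) - g l := by
      have h5 := t3 l
      have h6 : (g l : ℝ) < t := by
        have h7 : 0 < 2 ^ (∑ s, E₃ s) := Nat.two_pow_pos _
        have : g l < t := by omega
        exact_mod_cast this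
      linarith
    rw [← hE₃ (fun w => s (l, some w)) (1 / ((t : ℝ) - g l)) (one_div_pos.2 h4) (by
      rw [one_div_mul_eq_div, div_lt_one h4]
      have h5 := t3 l
      have h6 : (2 : ℝ) ^ (∑ s, E₃ s) + g l < t := by exact_mod_cast h5
      have h7 : (2 : ℝ) ^ E₃ (fun w => s (l, some w)) ≤ 2 ^ (∑ s, E₃ s) :=
        pow_le_pow_right₀ (by norm_num) (Finset.single_le_sum (f := E₃) (fun _ _ => Nat.zero_le _) (Finset.mem_univ _))
      linarith)]
    rw [Complex.ofReal_mul, Complex.ofReal_pow, Complex.ofReal_prod]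
    congr 1
    refine Finset.prod_congr rfl fun w _ => ?_
    rw [Complex.ofReal_pow]
    rfl
  rw [h2]
  exact h1

/-- the values without the logarithm -/
noncomputable def xn (α : Fin r → ℤ) (W : ℕ) (t g : ℕ) (w : LW r W) : ℂ := xh α W t g (some w)

/-- **the independence for separated shifts, without logarithms** -/
theorem base_n (hα : Function.Injective α) (h0 : ∀ a, α a ≠ 0) (W : ℕ) : Base (2 * ex α) (xn α W) := by
  classical
  intro N k
  obtain ⟨E, hE⟩ := base_h α hα h0 W N k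
  refine ⟨E, fun H t hHt g hg hgH => ?_⟩
  have h1 := (hE H t hHt g hg hgH).comp (fun (s : Fin k × LW r W → Fin (N + 1)) (i : Fin k × Option (LW r W)) =>
    i.2.elim (0 : Fin (N + 1)) fun w => s (i.1, w)) (by
      intro s s' h
      funext ⟨l, w⟩
      exact congrFun h (l, some w))
  have h2 : (fun s : Fin k × LW r W → Fin (N + 1) => ∏ i, xn α W t (g i.1) i.2 ^ (s i : ℕ)) =
      (fun s : Fin k × Option (LW r W) → Fin (N + 1) => ∏ i, xh α W t (g i.1) i.2 ^ (s i : ℕ)) ∘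
      (fun (s : Fin k × LW r W → Fin (N + 1)) (i : Fin k × Option (LW r W)) =>
        i.2.elim (0 : Fin (N + 1)) fun w => s (i.1, w)) := by
    funext s
    rw [Function.comp_apply, Fintype.prod_prod_type, Fintype.prod_prod_type]
    refine Finset.prod_congr rfl fun l _ => ?_
    rw [Fintype.prod_option]
    simp only [Option.elim_none, Option.elim_some, Fin.val_zero, pow_zero, one_mul]
    rfl
  rw [h2]
  exact h1

end Pool.Agent.L0h64.RP.Hy
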