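import Pool.Agent.L0h64.RP.HyC
import Pool.Agent.L0h64.RP.Fin

/-!
# Hyperlogarithms over arbitrary fields (helper64)
-/

set_option autoImplicit false

open Filter

namespace Pool.Agent.L0h64.RP.Hy

open Pool.Agent.Y119.ML

variable {r : ℕ} (α : Fin r → ℤ)

/-- no relation of degree at most `δ` between the numbers `y i` over `K(x_1, …, x_s)` -/
def IndI {s : ℕ} {ι : Type} (δ : ℕ) (K : IntermediateField ℚ ℂ) (x : Fin s → ℂ) (z : ι → ℂ) : Prop :=
  ∀ Q : MvPolynomial (Fin s ⊕ ι) K, Q.totalDegree ≤ δ → MvPolynomial.aeval (Sum.elim x z) Q = 0 →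
    ∀ y : ι → ℂ, MvPolynomial.aeval (Sum.elim x y) Q = 0

lemma indI_of {s n : ℕ} {ι : Type} [Fintype ι] {δ : ℕ} {K : IntermediateField ℚ ℂ} {x : Fin s → ℂ} {z : ι → ℂ}
    (hn : Fintype.card ι = n) (σ : Fin n → ι) (hσ : Function.Injective σ) (h : IndOver δ K x fun i => z (σ i)) :
    IndI δ K x z := by
  classical
  have hb : Function.Bijective σ := by
    rw [Fintype.bijective_iff_injective_and_card]
    exact ⟨hσ, by rw [Fintype.card_fin, hn]⟩
  obtain ⟨e, he⟩ : ∃ e : Fin n ≃ ι, ⇑e = σ := ⟨Equiv.ofBijective σ hb, rfl⟩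
  intro Q hQ hQ0 y
  have h2 := h (MvPolynomial.rename (Sum.map id e.symm) Q) ((MvPolynomial.totalDegree_rename_le _ _).trans hQ) (by
    rw [MvPolynomial.aeval_rename, ← hQ0]
    congr 1
    congr 1
    funext i
    rcases i with i | i
    · rfl
    · change z (σ (e.symm i)) = z i
      rw [← he, e.apply_symm_apply]) (fun j => y (e j))
  rw [MvPolynomial.aeval_rename] at h2
  rw [← h2]
  congr 1
  congr 1
  funext i
  rcases i with i | i
  · rfl
  · change y i = y (e (e.symm i))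
    rw [e.apply_symm_apply]

/-- the numbers -/
noncomputable def zh (α : Fin r → ℤ) {W k : ℕ} (t : ℕ) (g : Fin k → ℕ) (p : Fin k × Option (LW r W)) : ℂ :=
  p.2.elim (RP.lg (t - g p.1)) fun w => ((HL α w.1 (1 / ((t : ℝ) - g p.1)) : ℝ) : ℂ)

/-- the numbers without the logarithms -/
noncomputable def zn (α : Fin r → ℤ) {W k : ℕ} (t : ℕ) (g : Fin k → ℕ) (p : Fin k × LW r W) : ℂ :=
  ((HL α p.2.1 (1 / ((t : ℝ) - g p.1)) : ℝ) : ℂ)

/-- the statement with logarithms -/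
theorem rel_h (hα : Function.Injective α) (h0 : ∀ a, α a ≠ 0) (W k δ D s : ℕ) :
    ∃ E : ℕ, ∀ H t : ℕ, (H + 2) ^ E ≤ t → ∀ V : Set ℕ, SepW (2 * ex α) H V → ∀ x : Fin s → ℂ, ∃ S : Finset ℕ,
      S.card ≤ s + 1 ∧ ∀ g : Fin k → ℕ, Function.Injective g → (∀ l, g l ∈ V ∧ g l ∉ S) →
        ∀ K : IntermediateField ℚ ℂ, FiniteDimensional ℚ K → Module.finrank ℚ K ≤ D →
          IndI δ K x (zh α (W := W) t g) := by
  obtain ⟨E, hE⟩ := gen_rel (base_h α hα h0 W) (e := 1) (fun t _ => RP.lg t) (k := k) (s := s) (δ := δ) (D := D)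
    (ι := Fin k × Option (LW r W)) (Dat := IntermediateField ℚ ℂ)
    (fun _ _ _ K => FiniteDimensional ℚ K ∧ Module.finrank ℚ K ≤ D) (fun K => K) (fun _ _ _ _ h => h)
    (fun t g _ => zh α t g) (by
    intro S x g dat hgW hok X hx hex hz l o
    have h1 := hz (l, o)
    rcases o with _ | w
    · have hlog : blk S (xh α W) (fun i => g i l) none =
          ((fun i => zh α (W := W) (S.t i) (g i) (l, none) : ℕ → ℂ) : Kg S.U) -
            ((fun i => RP.lg (S.t i) : ℕ → ℂ) : Kg S.U) := by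
        rw [← Germ.coe_sub]
        unfold blk
        rw [Germ.coe_eq]
        filter_upwards [S.lt (fun i => g i l) (fun i => hgW i l)] with i hi
        have h1 : (0 : ℝ) < S.t i := by
          have : 0 < S.t i := by omega
          exact_mod_cast this
        have h2 : (0 : ℝ) < ((S.t i - g i l : ℕ) : ℝ) := by
          have : 0 < S.t i - g i l := by omega
          exact_mod_cast this
        have h3 : (1 : ℝ) - g i l / S.t i = ((S.t i - g i l : ℕ) : ℝ) / S.t i := by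
          rw [Nat.cast_sub hi.le]
          field_simp
        change ((Real.log (1 - g i l / S.t i) : ℝ) : ℂ) = RP.lg (S.t i - g i l) - RP.lg (S.t i)
        rw [h3, Real.log_div h2.ne' h1.ne', Complex.ofReal_sub]
        rfl
      rw [hlog]
      exact (clF _).sub_mem h1 (hex 0)
    · exact h1)
  refine ⟨E, fun H t ht V hV x => ?_⟩
  obtain ⟨S, hS, h1⟩ := hE H t ht V hV x
  refine ⟨S, hS, fun g hg hgV K hK hKD => ?_⟩
  obtain ⟨σ, hσ, hI⟩ := h1 g hg hgV K ⟨hK, hKD⟩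
  exact indI_of (by rw [Fintype.card_prod, Fintype.card_fin]) σ hσ hI

/-- the statement without logarithms -/
theorem rel_n (hα : Function.Injective α) (h0 : ∀ a, α a ≠ 0) (W k δ D s : ℕ) :
    ∃ E : ℕ, ∀ H t : ℕ, (H + 2) ^ E ≤ t → ∀ V : Set ℕ, SepW (2 * ex α) H V → ∀ x : Fin s → ℂ, ∃ S : Finset ℕ,
      S.card ≤ s ∧ ∀ g : Fin k → ℕ, Function.Injective g → (∀ l, g l ∈ V ∧ g l ∉ S) →
        ∀ K : IntermediateField ℚ ℂ, FiniteDimensional ℚ K → Module.finrank ℚ K ≤ D →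
          IndI δ K x (zn α (W := W) t g) := by
  obtain ⟨E, hE⟩ := gen_rel (base_n α hα h0 W) (e := 0) (fun _ i => i.elim0) (k := k) (s := s) (δ := δ) (D := D)
    (ι := Fin k × LW r W) (Dat := IntermediateField ℚ ℂ)
    (fun _ _ _ K => FiniteDimensional ℚ K ∧ Module.finrank ℚ K ≤ D) (fun K => K) (fun _ _ _ _ h => h)
    (fun t g _ => zn α t g) (by
    intro S x g dat hgW hok X hx hex hz l o
    exact hz (l, o))
  refine ⟨E, fun H t ht V hV x => ?_⟩
  obtain ⟨S, hS, h1⟩ := hE H t ht V hV x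
  refine ⟨S, hS, fun g hg hgV K hK hKD => ?_⟩
  obtain ⟨σ, hσ, hI⟩ := h1 g hg hgV K ⟨hK, hKD⟩
  exact indI_of (by rw [Fintype.card_prod, Fintype.card_fin]) σ hσ hI

end Pool.Agent.L0h64.RP.Hy
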