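import Pool.Agent.L0h64.RP.Sys
import Pool.Agent.L0h14.HO.SYAll

/-!
# Periods over arbitrary fields for the systems of hypergeometric families (helper64)
-/

set_option autoImplicit false

open PowerSeries Module Pool.Agent.Y113

namespace Pool.Agent.L0h64.RP

open Pool.Agent.L0h14.HO
open Pool.Agent.Results.MP_cbf1af_ag.AllTuplesDegenerating (toQ GCond val periods rank)

/-- the general theorem for our system -/
theorem rel_mainG {n : ℕ} {N : Matrix (Fin n) (Fin n) ℚ} {H : Matrix (Fin n) (Fin n) ℚ⟦X⟧}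
    {G' : Submonoid (Matrix (Fin n) (Fin n) ℂ)} (hS : SY n N H G') :
    ∃ Nt : Matrix (Fin n) (Fin n) ℤ, (∀ i j, ((Nt i j : ℤ) : ℚ) = N j i) ∧ ∃ G : ℕ, ∀ k δ D s : ℕ,
      ∃ (c : ℝ) (M₀ : ℕ), 0 < c ∧ ∀ M : ℕ, M₀ ≤ M → ∀ W : Set ℕ, Win G c M W →
      ∀ x : Fin s → ℂ, ∃ S : Finset ℕ, S.card ≤ s + 1 ∧ ∀ m : Fin k → ℕ, Function.Injective m →
        (∀ l, m l ∈ W ∧ m l ∉ S) → ∀ (K : IntermediateField ℚ ℂ) [FiniteDimensional ℚ K], finrank ℚ K ≤ D →
        ∀ A B : Fin k → Matrix (Fin n) (Fin n) ℂ, (∀ l, IsUnit (A l)) → (∀ l, IsUnit (B l)) →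
        (∀ l i j, AlgOver δ K x (A l i j)) → (∀ l i j, AlgOver δ K x (B l i j)) →
        ∃ σ : Fin (k * (rank H.transpose + 1)) → Fin k × Option (Fin n × Fin n), Function.Injective σ ∧
          IndOver δ K x fun i => zv (fun l => lg (m l)) (fun l => periods (A l) Nt H.transpose (m l) * B l) (σ i) := by
  obtain ⟨Nz, hNz⟩ := hS.int
  obtain ⟨T₁, A, hT, hode⟩ := hS.ode
  obtain ⟨W, hW1, hW2⟩ := hS.wex
  set Nt : Matrix (Fin n) (Fin n) ℤ := Matrix.of fun i j => Nz j i with hNt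
  have hc : ∀ i j, ((Nt i j : ℤ) : ℚ) = N j i := fun i j => hNz j i
  refine ⟨Nt, hc, ?_⟩
  refine sys_rel n T₁ (Matrix.of fun k j => A j k) Nt H.transpose
    W.transpose hT (Nt_nil hc hS.nil) ?_ ?_ ?_ (fun i j => gcond (hS.sdc j i)) (fun i j => gcond (hW2 j i))
  · intro i j
    have h1 := hode j i
    have h2 : ∑ k, C ((Nt i k : ℤ) : ℚ) * H.transpose k j = ∑ k, H j k * C (N k i) := by
      refine Finset.sum_congr rfl fun k _ => ?_
      rw [hc, mul_comm]
      rfl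
    have h3 : ∑ k, H.transpose i k * toQ ((Matrix.of fun k j => A j k) k j) = ∑ k, ps (A j k) * H k i := by
      refine Finset.sum_congr rfl fun k _ => ?_
      rw [mul_comm]
      rfl
    rw [h2, h3, ← h1]
    rfl
  · intro i j
    rw [Matrix.transpose_apply, hS.h0]
    simp only [eq_comm]
  · rw [← Matrix.transpose_mul, hW1, Matrix.transpose_one]

end Pool.Agent.L0h64.RP
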