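import Pool.Agent.L0h64.RP.Ger

/-!
# Matrices over the field of germs, and a lemma on matroids (helper64)
-/

set_option autoImplicit false

namespace Pool.Agent.L0h64.RP

open Filter

section Mt

open Set Matroid

/-- a basis of the closure from a spanning family -/
lemma mat1 {α ι : Type} (M : Matroid α) (hM : M.E = univ) {Y B : Set α} (z : ι → α) (r : ℕ)
    (hr : (r : ℕ∞) ≤ B.encard) (hind : ∀ e ∈ B, e ∉ M.closure (Y ∪ (B \ {e})))
    (hcl : B ⊆ M.closure (Y ∪ range z)) :
    ∃ σ : Fin r → ι, Function.Injective (fun j => z (σ j)) ∧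
      ∀ j, z (σ j) ∉ M.closure (Y ∪ (range (fun j => z (σ j)) \ {z (σ j)})) := by
  classical
  have hsub : ∀ X : Set α, X ⊆ M.E := fun X => by rw [hM]; exact subset_univ _
  have hBY : ∀ e ∈ B, e ∉ Y := fun e he hY =>
    hind e he (M.subset_closure _ (hsub _) (Or.inl hY))
  have hcon : ∀ X e, e ∈ (M ／ Y).closure X ↔ e ∈ M.closure (Y ∪ X) ∧ e ∉ Y := by
    intro X e
    rw [Matroid.contract_closure_eq, union_comm]
    rfl
  have hE : ∀ X : Set α, (∀ e ∈ X, e ∉ Y) → X ⊆ (M ／ Y).E := by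
    intro X hX e he
    rw [Matroid.contract_ground]
    exact ⟨hsub X he, hX e he⟩
  have hBi : (M ／ Y).Indep B := by
    rw [Matroid.indep_iff_forall_notMem_closure_sdiff (hE B hBY)]
    intro e he h
    exact hind e he ((hcon _ _).1 h).1
  obtain ⟨I, hI⟩ := (M ／ Y).exists_isBasis' (range z)
  have hBI : B ⊆ (M ／ Y).closure I := by
    rw [hI.closure_eq_closure]
    intro e he
    rw [hcon]
    exact ⟨hcl he, hBY e he⟩
  have hcard : B.encard ≤ I.encard := by
    have h1 := hBi.encard_le_eRk_of_subset hBI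
    rwa [Matroid.eRk_closure_eq, hI.indep.eRk_eq_encard] at h1
  obtain ⟨J, hJI, hJ⟩ := Set.exists_subset_encard_eq (hr.trans hcard)
  have hJi : (M ／ Y).Indep J := hI.indep.subset hJI
  have hJf : J.Finite := Set.finite_of_encard_eq_coe hJ
  have := hJf.fintype
  have hJc : Fintype.card J = r := by
    rw [Set.encard_eq_coe_toFinset_card, Set.toFinset_card] at hJ
    exact_mod_cast hJ
  let e : Fin r ≃ J := (Fintype.equivFinOfCardEq hJc).symm
  have h0 : ∀ j, ∃ i, z i = e j := fun j => hI.subset (hJI (e j).2)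
  choose σ hσ using h0
  have hz : (fun j => z (σ j)) = fun j => (e j : α) := funext hσ
  have hran : range (fun j => z (σ j)) = J := by
    rw [hz]
    ext a
    constructor
    · rintro ⟨j, rfl⟩
      exact (e j).2
    · intro ha
      exact ⟨e.symm ⟨a, ha⟩, by simp⟩
  refine ⟨σ, ?_, fun j h => ?_⟩
  · rw [hz]
    exact fun i j h => e.injective (Subtype.ext h)
  · rw [hran] at h
    have hj : z (σ j) ∈ J := by
      rw [hσ]
      exact (e j).2
    have h1 := (Matroid.indep_iff_forall_notMem_closure_sdiff hJi.subset_ground).1 hJi hj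
    apply h1
    rw [hcon]
    refine ⟨h, ?_⟩
    have h2 := hJi.subset_ground hj
    rw [Matroid.contract_ground] at h2
    exact h2.2

end Mt

section Mx

variable {L : Type} [Field L] {n : Type} [Fintype n] [DecidableEq n] (F : Subfield L)

omit [DecidableEq n] in
lemma mulm {A B : Matrix n n L} (hA : ∀ i j, A i j ∈ F) (hB : ∀ i j, B i j ∈ F) (i j : n) : (A * B) i j ∈ F := by
  rw [Matrix.mul_apply]
  exact F.sum_mem fun k _ => F.mul_mem (hA i k) (hB k j)

lemma invm {A : Matrix n n L} (hA : ∀ i j, A i j ∈ F) (i j : n) : A⁻¹ i j ∈ F := by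
  obtain ⟨A', hA'⟩ : ∃ A' : Matrix n n F, F.subtype.mapMatrix A' = A :=
    ⟨Matrix.of fun i j => ⟨A i j, hA i j⟩, by
      ext i j
      rfl⟩
  have h1 : A.det ∈ F := by
    rw [← hA', ← RingHom.map_det]
    exact Subtype.mem _
  have h2 : A.adjugate i j ∈ F := by
    rw [← hA', ← RingHom.map_adjugate]
    exact Subtype.mem _
  rw [Matrix.inv_def, Ring.inverse_eq_inv', Matrix.smul_apply, smul_eq_mul]
  exact F.mul_mem (F.inv_mem h1) h2

lemma mem_mid {A E Z B : Matrix n n L} (hA : ∀ i j, A i j ∈ F) (hE : ∀ i j, E i j ∈ F) (hB : ∀ i j, B i j ∈ F)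
    (hP : ∀ i j, (A * E * Z * B) i j ∈ F) (uA : IsUnit A) (uE : IsUnit E) (uB : IsUnit B) (i j : n) : Z i j ∈ F := by
  have h1 : Z = (A * E)⁻¹ * (A * E * Z * B) * B⁻¹ := by
    have hB' : IsUnit B.det := (Matrix.isUnit_iff_isUnit_det B).1 uB
    have hAE : IsUnit (A * E).det := (Matrix.isUnit_iff_isUnit_det _).1 (uA.mul uE)
    rw [Matrix.mul_assoc (A * E) Z B, Matrix.nonsing_inv_mul_cancel_left _ _ hAE, Matrix.mul_nonsing_inv_cancel_right _ _ hB']
  rw [h1]
  exact mulm F (mulm F (invm F (mulm F hA hE)) hP) (invm F hB) i j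

end Mx

section Gm

variable {U : Ultrafilter ℕ} {n : Type} [Fintype n] [DecidableEq n]

/-- the germ of a sequence of matrices -/
noncomputable def gm (U : Ultrafilter ℕ) (A : ℕ → Matrix n n ℂ) : Matrix n n (Kg U) :=
  Matrix.of fun a b => ((fun i => A i a b : ℕ → ℂ) : Kg U)

omit [DecidableEq n] in
lemma gm_mul (A B : ℕ → Matrix n n ℂ) : gm U (fun i => A i * B i) = gm U A * gm U B := by
  ext a b
  rw [Matrix.mul_apply]
  have h1 : ∀ c, gm U A a c * gm U B c b = Germ.coeRingHom (U : Filter ℕ) (fun i => A i a c * B i c b) := fun c => rfl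
  rw [Finset.sum_congr rfl fun c _ => h1 c, ← map_sum]
  change ((fun i => (A i * B i) a b : ℕ → ℂ) : Kg U) = ((∑ c, fun i => A i a c * B i c b : ℕ → ℂ) : Kg U)
  congr 1
  funext i
  rw [Matrix.mul_apply, Finset.sum_apply]

omit [Fintype n] in
lemma gm_one : gm U (fun _ => (1 : Matrix n n ℂ)) = 1 := by
  ext a b
  rw [Matrix.one_apply]
  change ((fun i => (1 : Matrix n n ℂ) a b : ℕ → ℂ) : Kg U) = _
  simp only [Matrix.one_apply]
  split_ifs
  · rfl
  · rfl

lemma gm_unit {A : ℕ → Matrix n n ℂ} (hA : ∀ i, IsUnit (A i)) : IsUnit (gm U A) := by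
  choose u hu using hA
  have h1 : gm U A * gm U (fun i => ((u i)⁻¹ : (Matrix n n ℂ)ˣ)) = 1 := by
    rw [← gm_mul, ← gm_one]
    congr 1
    funext i
    rw [← hu, Units.mul_inv]
  exact IsUnit.of_mul_eq_one _ h1

end Gm

end Pool.Agent.L0h64.RP
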