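import Pool.Agent.L0h64.ZV.Lyn

/-!
# Lists of shuffles (helper64)
-/

set_option autoImplicit false

namespace Pool.Agent.L0h64.RP.Hy

open Pool.Agent.L0h64.ZV.Lyn

variable {α : Type}

/-- the shuffles of two words, with multiplicities -/
def shf : List α → List α → List (List α)
  | [], v => [v]
  | a :: u, [] => [a :: u]
  | a :: u, b :: v => (shf u (b :: v)).map (a :: ·) ++ (shf (a :: u) v).map (b :: ·)

/-- the shuffles of a list of words, with multiplicities -/
def shl : List (List α) → List (List α)
  | [] => [[]]
  | u :: M => (shl M).flatMap (shf u)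

lemma sh_self (u : List α) (s : Multiset (List α)) (hs : ∀ v ∈ s, v = []) : Sh (u ::ₘ s) u := by
  induction u with
  | nil =>
    refine Sh.nil _ fun v hv => ?_
    rcases Multiset.mem_cons.1 hv with rfl | hv
    · rfl
    · exact hs v hv
  | cons a u ih => exact Sh.cons a u s u ih

lemma Sh.map' {β : Type} (f : α → β) {s : Multiset (List α)} {w : List α} (h : Sh s w) :
    Sh (s.map (List.map f)) (w.map f) := by
  induction h with
  | nil s h =>
    refine Sh.nil _ fun u hu => ?_
    obtain ⟨v, hv, rfl⟩ := Multiset.mem_map.1 hu
    rw [h v hv, List.map_nil]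
  | cons a u s w h ih =>
    rw [Multiset.map_cons] at ih ⊢
    exact Sh.cons (f a) (u.map f) _ _ ih

lemma shf_sh (u v : List α) : ∀ w ∈ shf u v, ∀ s : Multiset (List α), Sh s v → Sh (u ::ₘ s) w := by
  induction u, v using shf.induct with
  | case1 v =>
    intro w hw s hs
    rw [shf, List.mem_singleton] at hw
    rw [hw]
    exact hs.cons_nil
  | case2 a u =>
    intro w hw s hs
    rw [shf, List.mem_singleton] at hw
    rw [hw]
    exact sh_self _ _ hs.nil_iff
  | case3 a u b v ih1 ih2 =>
    intro w hw s hs
    rw [shf, List.mem_append, List.mem_map, List.mem_map] at hw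
    rcases hw with ⟨w', hw', rfl⟩ | ⟨w', hw', rfl⟩
    · exact Sh.cons a u s w' (ih1 w' hw' s hs)
    · obtain ⟨x, s', rfl, hs'⟩ := hs.inv
      have h1 := ih2 w' hw' (x ::ₘ s') hs'
      rw [Multiset.cons_swap] at h1 ⊢
      exact Sh.cons b x _ w' h1

lemma shl_sh (M : List (List α)) : ∀ w ∈ shl M, Sh (M : Multiset (List α)) w := by
  induction M with
  | nil =>
    intro w hw
    rw [shl, List.mem_singleton] at hw
    rw [hw]
    exact Sh.nil _ fun u hu => by simp at hu
  | cons u M ih =>
    intro w hw
    rw [shl, List.mem_flatMap] at hw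
    obtain ⟨v, hv, hw⟩ := hw
    rw [← Multiset.cons_coe]
    exact shf_sh u v w hw _ (ih v hv)

lemma append_mem_shf (u v : List α) : u ++ v ∈ shf u v := by
  induction u, v using shf.induct with
  | case1 v => simp [shf]
  | case2 a u => simp [shf]
  | case3 a u b v ih1 ih2 =>
    rw [shf, List.mem_append]
    left
    rw [List.cons_append]
    exact List.mem_map_of_mem ih1

lemma flatten_mem_shl (M : List (List α)) : M.flatten ∈ shl M := by
  induction M with
  | nil => simp [shl]
  | cons u M ih =>
    rw [shl, List.mem_flatMap, List.flatten_cons]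
    exact ⟨_, ih, append_mem_shf _ _⟩

lemma shl_length {M : List (List α)} {w : List α} (h : w ∈ shl M) : w.length = tot (M : Multiset (List α)) :=
  (shl_sh M w h).length

/-- the product formula from the formula for two words -/
lemma prod_shl {A : Type} [CommRing A] (P : List α → Prop) (φ : List α → A) (h1 : φ [] = 1) (hP1 : P [])
    (hP : ∀ u v w, P u → P v → w ∈ shf u v → P w)
    (h2 : ∀ u v, P u → P v → φ u * φ v = ((shf u v).map φ).sum) (M : List (List α)) (hM : ∀ u ∈ M, P u) :
    (∀ w ∈ shl M, P w) ∧ (M.map φ).prod = ((shl M).map φ).sum := by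
  induction M with
  | nil =>
    refine ⟨fun w hw => ?_, by simp [shl, h1]⟩
    rw [shl, List.mem_singleton] at hw
    rw [hw]
    exact hP1
  | cons u M ih =>
    obtain ⟨i1, i2⟩ := ih fun x hx => hM x (List.mem_cons_of_mem _ hx)
    have hu := hM u List.mem_cons_self
    refine ⟨fun w hw => ?_, ?_⟩
    · rw [shl, List.mem_flatMap] at hw
      obtain ⟨v, hv, hw⟩ := hw
      exact hP u v w hu (i1 v hv) hw
    · rw [List.map_cons, List.prod_cons, i2, shl]
      clear i2
      revert i1
      generalize shl M = T
      intro i1
      induction T with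
      | nil => simp
      | cons v T ihT =>
        rw [List.map_cons, List.sum_cons, mul_add, List.flatMap_cons, List.map_append, List.sum_append,
          ihT fun w hw => i1 w (List.mem_cons_of_mem _ hw), h2 u v hu (i1 v List.mem_cons_self)]

section mono

variable [DecidableEq α] {ι : Type} [Fintype ι]

/-- the multiset of words of a monomial -/
noncomputable def wm (s : ι → List α) (a : ι → ℕ) : Multiset (List α) := ∑ i, Multiset.replicate (a i) (s i)

omit [DecidableEq α] in
lemma mem_wm {s : ι → List α} {a : ι → ℕ} {x : List α} (h : x ∈ wm s a) : ∃ i, s i = x := by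
  unfold wm at h
  rw [Multiset.mem_sum] at h
  obtain ⟨i, _, hi⟩ := h
  exact ⟨i, (Multiset.eq_of_mem_replicate hi).symm⟩

lemma wm_inj {s : ι → List α} (hs : Function.Injective s) : Function.Injective (wm s) := by
  classical
  intro a b h
  funext i
  have h1 := congrArg (Multiset.count (s i)) h
  unfold wm at h1
  rw [Multiset.count_sum', Multiset.count_sum'] at h1
  have h2 : ∀ a : ι → ℕ, ∑ j, Multiset.count (s i) (Multiset.replicate (a j) (s j)) = a i := by
    intro a
    rw [Finset.sum_eq_single i]
    · rw [Multiset.count_replicate_self]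
    · intro j _ hj
      rw [Multiset.count_replicate, if_neg]
      intro h
      exact hj (hs h)
    · intro h
      exact absurd (Finset.mem_univ i) h
  rwa [h2, h2] at h1

omit [DecidableEq α] in
lemma wm_prod {A : Type} [CommRing A] (s : ι → List α) (a : ι → ℕ) (f : List α → A) :
    ((wm s a).map f).prod = ∏ i, f (s i) ^ a i := by
  unfold wm
  induction (Finset.univ : Finset ι) using Finset.cons_induction with
  | empty => simp
  | cons i T hi ih =>
    rw [Finset.sum_cons, Multiset.map_add, Multiset.prod_add, ih, Finset.prod_cons, Multiset.map_replicate,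
      Multiset.prod_replicate]

omit [DecidableEq α] in
lemma wm_tot (s : ι → List α) (a : ι → ℕ) : tot (wm s a) = ∑ i, a i * (s i).length := by
  unfold wm tot
  induction (Finset.univ : Finset ι) using Finset.cons_induction with
  | empty => simp
  | cons i T hi ih =>
    rw [Finset.sum_cons, Multiset.map_add, Multiset.sum_add, ih, Finset.sum_cons, Multiset.map_replicate,
      Multiset.sum_replicate, smul_eq_mul]

end mono

section lead

variable (e : α → ℕ) (he : Function.Injective e)

/-- Lyndon words in the alphabet with the order given by `e` -/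
def Ly (w : List α) : Prop := IsLyn (w.map e)

/-- a sorted list of words -/
def Srt (M : List (List α)) : Prop := (M.map (List.map e)).Pairwise (· ≥ ·)

lemma exists_srt (m : Multiset (List α)) : ∃ M : List (List α), (M : Multiset (List α)) = m ∧ Srt e M := by
  classical
  induction m using Quotient.inductionOn with
  | h L =>
    refine ⟨L.mergeSort fun u v => decide (v.map e ≤ u.map e), ?_, ?_⟩
    · exact Quotient.sound (List.mergeSort_perm _ _)
    · unfold Srt
      rw [List.pairwise_map]
      have h1 := List.pairwise_mergeSort (le := fun u v : List α => decide (v.map e ≤ u.map e))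
        (fun a b c h1 h2 => by
          rw [decide_eq_true_eq] at h1 h2 ⊢
          exact h2.trans h1) (fun a b => by
          rcases le_total (b.map e) (a.map e) with h | h
          · simp [h]
          · simp [h]) L
      exact h1.imp fun h => by simpa using h

include he in
/-- the leading word determines the list -/
lemma leadS {M M' : List (List α)} (hM : Srt e M) (hM' : Srt e M') (hL : ∀ u ∈ M, Ly e u) (hL' : ∀ u ∈ M', Ly e u)
    (hle : M'.flatten.map e ≤ M.flatten.map e) (hmem : M.flatten ∈ shl M') : M' = M := by
  have h4 := Sh.map' e (shl_sh M' _ hmem)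
  rw [Multiset.map_coe] at h4
  have h5 : M.flatten.map e ≤ (M'.map (List.map e)).flatten := max_shuffle (M'.map (List.map e)) hM' (by
    intro l hl
    obtain ⟨u, hu, rfl⟩ := List.mem_map.1 hl
    exact hL' u hu) _ h4
  rw [← List.map_flatten] at h5
  have h6 := le_antisymm hle h5
  rw [List.map_flatten, List.map_flatten] at h6
  have h7 := unique_fac _ _ hM' hM (by
    intro l hl
    obtain ⟨u, hu, rfl⟩ := List.mem_map.1 hl
    exact hL' u hu) (by
    intro l hl
    obtain ⟨u, hu, rfl⟩ := List.mem_map.1 hl
    exact hL u hu) h6
  exact List.map_injective_iff.2 (List.map_injective_iff.2 he) h7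

end lead

end Pool.Agent.L0h64.RP.Hy
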