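import Pool.Agent.L0h64.RP.Fin
import Pool.Agent.Results.MP_cbf1af_ag.AllTuplesDegenerating

/-!
# Periods over arbitrary fields near a degenerate fibre (helper64)
-/

set_option autoImplicit false

open PowerSeries Module

namespace Pool.Agent.L0h64.RP

open Pool.Agent.Results.MP_cbf1af_ag.AllTuplesDegenerating (toQ GCond val periods rank gf pl ix_pl pl_surj)

/-- the windows -/
def Win (G : ℕ) (c : ℝ) (M : ℕ) (W : Set ℕ) : Prop :=
  (∀ m ∈ W, M ≤ m ∧ (m : ℝ) ≤ M + (M : ℝ) ^ c) ∧ ∀ m ∈ W, ∀ m' ∈ W, m ≠ m' → (G : ℤ) ≤ |(m : ℤ) - m'|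

/-- **the main theorem for abstract systems** -/
theorem sys_rel (n : ℕ) (T : Polynomial ℤ) (A : Matrix (Fin n) (Fin n) (Polynomial ℤ)) (N : Matrix (Fin n) (Fin n) ℤ)
    (Z W : Matrix (Fin n) (Fin n) ℚ⟦X⟧) (hT : T ≠ 0) (hN : N ^ n = 0)
    (hode : ∀ i j, toQ T * (X * PowerSeries.derivative ℚ (Z i j) + ∑ k, C (N i k : ℚ) * Z k j) = ∑ k, Z i k * toQ (A k j))
    (hZ0 : ∀ i j, coeff 0 (Z i j) = if i = j then 1 else 0) (hW : W * Z = 1)
    (hGZ : ∀ i j, GCond (Z i j)) (hGW : ∀ i j, GCond (W i j)) :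
    ∃ G : ℕ, ∀ k δ D s : ℕ, ∃ (c : ℝ) (M₀ : ℕ), 0 < c ∧ ∀ M : ℕ, M₀ ≤ M → ∀ W : Set ℕ, Win G c M W →
      ∀ x : Fin s → ℂ, ∃ S : Finset ℕ, S.card ≤ s + 1 ∧ ∀ m : Fin k → ℕ, Function.Injective m →
        (∀ l, m l ∈ W ∧ m l ∉ S) → ∀ (K : IntermediateField ℚ ℂ) [FiniteDimensional ℚ K], finrank ℚ K ≤ D →
        ∀ A B : Fin k → Matrix (Fin n) (Fin n) ℂ, (∀ l, IsUnit (A l)) → (∀ l, IsUnit (B l)) →
        (∀ l i j, AlgOver δ K x (A l i j)) → (∀ l i j, AlgOver δ K x (B l i j)) →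
        ∃ σ : Fin (k * (rank Z + 1)) → Fin k × Option (Fin n × Fin n), Function.Injective σ ∧
          IndOver δ K x fun i => zv (fun l => lg (m l)) (fun l => periods (A l) N Z (m l) * B l) (σ i) := by
  classical
  have hF := gf T A N Z W hT hN hode hZ0 hW hGZ hGW
  set Nq : Matrix (Fin n) (Fin n) ℚ := N.map (Int.castRingHom ℚ) with hNq
  have hb : Nq ^ n = 0 := by
    have h1 := map_pow (RingHom.mapMatrix (Int.castRingHom ℚ)) N n
    rw [hN, map_zero] at h1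
    exact h1.symm
  set V : Set ℕ := {d : ℕ | ∃ T : Fin d → Fin n × Fin n, AlgebraicIndependent (Polynomial ℚ) (fun i => Z (T i).1 (T i).2)} with hV
  have hbdd : BddAbove V := by
    refine ⟨Fintype.card (Fin n × Fin n), ?_⟩
    rintro d ⟨T, hT⟩
    have h1 : Function.Injective T := by
      intro i j hij
      exact hT.injective (by
        show Z (T i).1 (T i).2 = Z (T j).1 (T j).2
        rw [hij])
    simpa using Fintype.card_le_of_injective T h1
  have hne : V.Nonempty := by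
    refine ⟨0, fun i => i.elim0, ?_⟩
    rw [algebraicIndependent_empty_type_iff]
    intro p q hpq
    have h1 : ((p : Polynomial ℚ) : ℚ⟦X⟧) = (q : ℚ⟦X⟧) := by
      simpa [PowerSeries.algebraMap_apply'] using hpq
    exact_mod_cast h1
  obtain ⟨T₁, hT₁⟩ : rank Z ∈ V := Nat.sSup_mem hne hbdd
  have hT' : AlgebraicIndependent (Polynomial ℚ) (fun i => (fun a => Z (Pool.Agent.Y119.HZ.ix n a).2 (Pool.Agent.Y119.HZ.ix n a).1)
      (pl n (T₁ i))) := by
    simpa only [ix_pl] using hT₁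
  obtain ⟨G0, hmain⟩ := fin_rel (N := Nq) hF (pl_surj n) hb (fun i => pl n (T₁ i)) hT'
  refine ⟨G0, fun k δ D s => ?_⟩
  obtain ⟨E, hE⟩ := hmain k δ D s
  obtain ⟨c, M₀, hc, hw⟩ := Y124.TD.window E G0
  refine ⟨c, M₀, hc, fun M hM W hWin x => ?_⟩
  obtain ⟨Q, hQ⟩ : ∃ Q : ℕ, Q = M + (⌊(M : ℝ) ^ c⌋₊ + G0) := ⟨_, rfl⟩
  have hle : ∀ m ∈ W, m + G0 ≤ Q := by
    intro m hm
    have h1 := (hWin.1 m hm).2
    have h2 : ((m - M : ℕ) : ℝ) ≤ (M : ℝ) ^ c := by
      rw [Nat.cast_sub (hWin.1 m hm).1]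
      linarith
    have h3 := Nat.le_floor h2
    have := (hWin.1 m hm).1
    omega
  obtain ⟨S, hS, hmain2⟩ := hE (⌊(M : ℝ) ^ c⌋₊ + G0) Q ((hw M hM).trans (by omega)) ((fun m => Q - m) '' W) (by
    refine ⟨?_, ?_⟩
    · rintro _ ⟨m, hm, rfl⟩
      have h1 := hle m hm
      have h2 := (hWin.1 m hm).1
      change G0 ≤ Q - m ∧ Q - m ≤ _
      omega
    · rintro _ ⟨m, hm, rfl⟩ _ ⟨m', hm', rfl⟩ hne
      have h1 := hle m hm
      have h2 := hle m' hm'
      have h3 : m ≠ m' := by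
        rintro rfl
        exact hne rfl
      have h4 := hWin.2 m hm m' hm' h3
      change Q - m + G0 ≤ Q - m' ∨ Q - m' + G0 ≤ Q - m
      rcases le_total m m' with h7 | h7
      · right
        rw [abs_of_nonpos (by omega)] at h4
        omega
      · left
        rw [abs_of_nonneg (by omega)] at h4
        omega) x
  refine ⟨S.image fun g => Q - g, Finset.card_image_le.trans hS, fun m hm hmW K _ hK A B uA uB aA aB => ?_⟩
  have hQm : ∀ l, Q - (Q - m l) = m l := fun l => by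
    have := hle (m l) (hmW l).1
    omega
  obtain ⟨σ, hσ, hI⟩ := hmain2 (fun l => Q - m l) (fun l l' hll => by
    apply hm
    have h1 : Q - (Q - m l) = Q - (Q - m l') := congrArg (fun a => Q - a) hll
    rwa [hQm, hQm] at h1) (fun l => ⟨⟨m l, (hmW l).1, rfl⟩, fun h => (hmW l).2 (Finset.mem_image.2 ⟨_, h, hQm l⟩)⟩)
    K hK A B uA uB aA aB
  refine ⟨σ, hσ, ?_⟩
  simp only [hQm] at hI
  have e2 : Nq.map (algebraMap ℚ ℂ) = N.map (Int.castRingHom ℂ) := by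
    funext i j
    simp [hNq]
  have e1 : ∀ l, PM Nq (fun a => Z (Pool.Agent.Y119.HZ.ix n a).2 (Pool.Agent.Y119.HZ.ix n a).1) (pl n) A B m l =
      periods (A l) N Z (m l) * B l := by
    intro l
    unfold PM periods Pool.Agent.Y124.TL.EX
    rw [e2]
    congr 2
    funext i j
    show ((Y113.ev (m l : ℝ) (Z (Pool.Agent.Y119.HZ.ix n (pl n (i, j))).2 (Pool.Agent.Y119.HZ.ix n (pl n (i, j))).1) : ℝ) : ℂ) = _
    rw [ix_pl]
    rfl
  have e3 : (PM Nq (fun a => Z (Pool.Agent.Y119.HZ.ix n a).2 (Pool.Agent.Y119.HZ.ix n a).1) (pl n) A B m) =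
      fun l => periods (A l) N Z (m l) * B l := funext e1
  rw [e3] at hI
  exact hI

end Pool.Agent.L0h64.RP
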